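import Mathlib.NumberTheory.SumTwoSquares
import Mathlib.Tactic.IntervalCases
import Mathlib.Tactic.LinearCombination
import Mathlib.Tactic.Linarith
import Mathlib.Tactic.NormNum
import Mathlib.Tactic.Positivity
import Mathlib.Tactic.Push
import Mathlib.Tactic.Ring
import Mathlib.Tactic.Zify
import Pool.Agent.Lib.MP_0e0027_nt.Ex.StmtsV

/-!
Module VA: a number `l = 1 mod 4` or `l = 2 mod 8` without prime factor `3 mod 4` is a sum of
two coprime positive squares.
-/

set_option autoImplicit false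

namespace Pool.Agent.Lib.MP_0e0027_nt.Ex

namespace VA

/-- every positive definite binary form of discriminant `-4` is equivalent to `x^2 + y^2` -/
theorem form (k : ℕ) : ∀ s l m : ℤ, s.natAbs ≤ k → 0 < l → 0 < m → l * m = s ^ 2 + 1 →
    ∃ a b c d : ℤ, a ^ 2 + c ^ 2 = l ∧ a * b + c * d = s ∧ b ^ 2 + d ^ 2 = m := by
  induction k with
  | zero =>
    intro s l m hs hl hm h
    have h0 : s = 0 := by omega
    subst h0
    have h1 : l * m = 1 := by simpa using h
    have h2 : l = 1 := by nlinarith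
    have h3 : m = 1 := by nlinarith
    exact ⟨1, 0, 0, 1, by simp [h2], by simp, by simp [h3]⟩
  | succ k ih =>
    intro s l m hs hl hm h
    rcases eq_or_ne s 0 with h0 | h0
    · exact ih s l m (by subst h0; simp) hl hm h
    rcases le_or_gt l (|s|) with hls | hls
    · rcases lt_or_gt_of_ne h0 with hneg | hpos
      · -- s < 0
        rw [abs_of_neg hneg] at hls
        have hm' : 0 < m + 2 * s + l := by
          have : 0 < l * (m + 2 * s + l) := by nlinarith [sq_nonneg (s + l)]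
          exact pos_of_mul_pos_right this hl.le
        obtain ⟨a, b, c, d, h1, h2, h3⟩ := ih (s + l) l (m + 2 * s + l) (by omega) hl hm'
          (by nlinarith)
        exact ⟨a, b - a, c, d - c, h1, by linear_combination h2 - h1,
          by linear_combination h3 - 2 * h2 + h1⟩
      · rw [abs_of_pos hpos] at hls
        have hm' : 0 < m - 2 * s + l := by
          have : 0 < l * (m - 2 * s + l) := by nlinarith [sq_nonneg (s - l)]
          exact pos_of_mul_pos_right this hl.le
        obtain ⟨a, b, c, d, h1, h2, h3⟩ := ih (s - l) l (m - 2 * s + l) (by omega) hl hm'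
          (by nlinarith)
        exact ⟨a, b + a, c, d + c, h1, by linear_combination h2 + h1,
          by linear_combination h3 + 2 * h2 + h1⟩
    rcases le_or_gt m (|s|) with hms | hms
    · rcases lt_or_gt_of_ne h0 with hneg | hpos
      · rw [abs_of_neg hneg] at hms
        have hl' : 0 < l + 2 * s + m := by
          have : 0 < m * (l + 2 * s + m) := by nlinarith [sq_nonneg (s + m)]
          exact pos_of_mul_pos_right this hm.le
        obtain ⟨a, b, c, d, h1, h2, h3⟩ := ih (s + m) (l + 2 * s + m) m (by omega) hl' hm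
          (by nlinarith)
        exact ⟨a - b, b, c - d, d, by linear_combination h1 - 2 * h2 + h3,
          by linear_combination h2 - h3, h3⟩
      · rw [abs_of_pos hpos] at hms
        have hl' : 0 < l - 2 * s + m := by
          have : 0 < m * (l - 2 * s + m) := by nlinarith [sq_nonneg (s - m)]
          exact pos_of_mul_pos_right this hm.le
        obtain ⟨a, b, c, d, h1, h2, h3⟩ := ih (s - m) (l - 2 * s + m) m (by omega) hl' hm
          (by nlinarith)
        exact ⟨a + b, b, c + d, d, by linear_combination h1 + 2 * h2 + h3,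
          by linear_combination h2 + h3, h3⟩
    exfalso
    have h1 : 0 < |s| := abs_pos.mpr h0
    have h2 : (|s| + 1) * (|s| + 1) ≤ l * m :=
      mul_le_mul (by omega) (by omega) (by positivity) hl.le
    have h3 : |s| ^ 2 = s ^ 2 := sq_abs s
    nlinarith

/-- lifting a square root of `-1` from an odd modulus to its square -/
theorem lift {l : ℕ} (hl : l % 2 = 1) (h : ∃ s : ℤ, (l : ℤ) ∣ s ^ 2 + 1) :
    ∃ s : ℤ, ((l ^ 2 : ℕ) : ℤ) ∣ s ^ 2 + 1 := by
  obtain ⟨s, m, hm⟩ := h
  have h2 : (l ^ 2) % 2 = 1 := by rw [Nat.pow_mod, hl]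
  obtain ⟨u, hu⟩ : ∃ u : ℤ, 2 * u = ((l ^ 2 : ℕ) : ℤ) + 1 := ⟨((l ^ 2 : ℕ) + 1) / 2, by omega⟩
  refine ⟨s + (s ^ 2 + 1) * s * u, ?_⟩
  have h3 : (s + (s ^ 2 + 1) * s * u) ^ 2 + 1 =
      ((l ^ 2 : ℕ) : ℤ) * ((s ^ 2 + 1) * s ^ 2 + m ^ 2 + m ^ 2 * s ^ 2 * u ^ 2) := by
    have hl2 : ((l ^ 2 : ℕ) : ℤ) = (l : ℤ) ^ 2 := by push_cast; ring
    rw [hl2] at hu ⊢
    have e1 : (s + (s ^ 2 + 1) * s * u) ^ 2 + 1 =
      (s ^ 2 + 1) + s ^ 2 * (s ^ 2 + 1) * (2 * u) + (s ^ 2 + 1) ^ 2 * s ^ 2 * u ^ 2 := by ring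
    rw [e1, hu]
    have e2 : (s ^ 2 + 1) ^ 2 = (l : ℤ) ^ 2 * m ^ 2 := by rw [hm]; ring
    linear_combination (1 + s ^ 2 * u ^ 2) * e2
  exact ⟨_, h3⟩

theorem sqrt_iff {l : ℕ} : IsSquare (-1 : ZMod l) ↔ ∃ s : ℤ, (l : ℤ) ∣ s ^ 2 + 1 := by
  constructor
  · rintro ⟨r, hr⟩
    obtain ⟨s, rfl⟩ := ZMod.intCast_surjective r
    refine ⟨s, ?_⟩
    rw [← ZMod.intCast_zmod_eq_zero_iff_dvd]
    push_cast
    rw [pow_two, ← hr]; ring
  · rintro ⟨s, hs⟩
    rw [← ZMod.intCast_zmod_eq_zero_iff_dvd] at hs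
    refine ⟨(s : ZMod l), ?_⟩
    push_cast at hs
    rw [pow_two] at hs
    exact (eq_neg_of_add_eq_zero_left hs).symm

/-- for odd `l` without prime factor `3 mod 4` -/
theorem odd_case (l : ℕ) : l % 2 = 1 → (∀ q : ℕ, q.Prime → q % 4 = 3 → ¬ q ∣ l) →
    IsSquare (-1 : ZMod l) := by
  induction l using Nat.strong_induction_on with
  | _ l ih =>
    intro hl hq
    rcases Nat.lt_or_ge 1 l with h1 | h1
    · set p := l.minFac with hp
      have hpp : p.Prime := Nat.minFac_prime (by omega)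
      have hpl : p ∣ l := Nat.minFac_dvd l
      obtain ⟨m, hm⟩ := hpl
      have hp2 : p % 2 = 1 := by
        rcases hpp.eq_two_or_odd with h | h
        · exfalso; rw [h] at hm; omega
        · exact h
      have hm2 : m % 2 = 1 := by
        by_contra hcon
        have : m % 2 = 0 := by omega
        rw [hm, Nat.mul_mod, this] at hl
        simp at hl
      have hmpos : 0 < m := by omega
      have hml : m < l := by rw [hm]; nlinarith [hpp.two_le]
      have hsm : IsSquare (-1 : ZMod m) := ih m hml hm2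
        (fun q hq1 hq2 hq3 ↦ hq q hq1 hq2 (hm ▸ Dvd.dvd.mul_left hq3 p))
      by_cases hpm : p ∣ m
      · have h2 : IsSquare (-1 : ZMod (m ^ 2)) := sqrt_iff.mpr (lift hm2 (sqrt_iff.mp hsm))
        refine ZMod.isSquare_neg_one_of_dvd ?_ h2
        rw [hm, pow_two]
        exact Nat.mul_dvd_mul_right hpm m
      · have hp4 : p % 4 ≠ 3 := fun h ↦ hq p hpp h ⟨m, hm⟩
        have : Fact p.Prime := ⟨hpp⟩
        have hsp : IsSquare (-1 : ZMod p) := ZMod.exists_sq_eq_neg_one_iff.mpr hp4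
        rw [hm]
        exact ZMod.isSquare_neg_one_mul ((Nat.Prime.coprime_iff_not_dvd hpp).mpr hpm) hsp hsm
    · have : l = 1 := by omega
      subst this
      exact ⟨0, Subsingleton.elim _ _⟩

theorem primitive {l : ℕ} (hl : 2 ≤ l) (h : IsSquare (-1 : ZMod l)) : P2 l := by
  obtain ⟨s, m, hm⟩ := sqrt_iff.mp h
  have hlpos : (0 : ℤ) < l := by exact_mod_cast (by omega : 0 < l)
  have hmpos : 0 < m := by
    have : 0 < (l : ℤ) * m := by rw [← hm]; positivity
    exact pos_of_mul_pos_right this hlpos.le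
  obtain ⟨a, b, c, d, h1, h2, h3⟩ := form s.natAbs s l m le_rfl hlpos hmpos hm.symm
  have h4 : (a * d - b * c) ^ 2 = 1 := by
    have e : (a * d - b * c) ^ 2 = (a ^ 2 + c ^ 2) * (b ^ 2 + d ^ 2) - (a * b + c * d) ^ 2 := by
      ring
    rw [e, h1, h2, h3, ← hm]; ring
  have hcop : IsCoprime a c := by
    rcases sq_eq_one_iff.mp h4 with h5 | h5
    · exact ⟨d, -b, by linear_combination h5⟩
    · exact ⟨-d, b, by linear_combination -h5⟩
  have hnat : a.natAbs.Coprime c.natAbs := Int.isCoprime_iff_gcd_eq_one.mp hcop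
  have hsum : a.natAbs ^ 2 + c.natAbs ^ 2 = l := by
    zify
    rw [sq_abs, sq_abs]; exact h1
  refine ⟨a.natAbs, c.natAbs, ?_, ?_, hsum, hnat⟩
  · by_contra hcon
    have h0 : a.natAbs = 0 := by omega
    rw [h0] at hnat hsum
    have h1 : c.natAbs = 1 := by simpa using hnat
    rw [h1] at hsum
    omega
  · by_contra hcon
    have h0 : c.natAbs = 0 := by omega
    rw [h0] at hnat hsum
    have h1 : a.natAbs = 1 := by simpa using hnat
    rw [h1] at hsum
    omega

end VA

/-- Module VA -/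
theorem stVA : StVA := by
  intro l hl hcl hq
  apply VA.primitive hl
  rcases hcl with h | h
  · exact VA.odd_case l (by omega) hq
  · obtain ⟨m, hm⟩ : ∃ m, l = 2 * m := ⟨l / 2, by omega⟩
    have hm2 : m % 2 = 1 := by omega
    have h1 : IsSquare (-1 : ZMod m) := VA.odd_case m hm2
      (fun q hq1 hq2 hq3 ↦ hq q hq1 hq2 (hm ▸ Dvd.dvd.mul_left hq3 2))
    have h2 : IsSquare (-1 : ZMod 2) := ⟨1, by decide⟩
    rw [hm]
    exact ZMod.isSquare_neg_one_mul (Nat.coprime_two_left.mpr (Nat.odd_iff.mpr hm2)) h2 h1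

end Pool.Agent.Lib.MP_0e0027_nt.Ex
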