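import Mathlib.Data.Nat.Bitwise
import Pool.Agent.Lib.MP_0e0027_nt.Ex.V.VA

/-!
Bit sets as natural numbers: kernel friendly functions and their soundness.
-/

set_option autoImplicit false

namespace Pool.Agent.Lib.MP_0e0027_nt.Ex

/-- a sum of three pairwise coprime positive squares -/
def P3 (r : ℕ) : Prop := ∃ z x y : ℕ, 0 < z ∧ 0 < x ∧ 0 < y ∧ z ^ 2 + (x ^ 2 + y ^ 2) = r ∧
  z.Coprime x ∧ z.Coprime y ∧ x.Coprime y

theorem P3_of_prime {z l : ℕ} (hz : z.Prime) (hl : P2 l) (h : l < z ^ 2) : P3 (z ^ 2 + l) := by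
  obtain ⟨x, y, hx, hy, hxy, hc⟩ := hl
  have hxz : x < z := by
    by_contra hcon
    push Not at hcon
    nlinarith [Nat.mul_le_mul hcon hcon]
  have hyz : y < z := by
    by_contra hcon
    push Not at hcon
    nlinarith [Nat.mul_le_mul hcon hcon]
  refine ⟨z, x, y, hz.pos, hx, hy, by rw [hxy], ?_, ?_, hc⟩
  · exact (Nat.Prime.coprime_iff_not_dvd hz).mpr fun hd ↦ absurd (Nat.le_of_dvd hx hd) (by omega)
  · exact (Nat.Prime.coprime_iff_not_dvd hz).mpr fun hd ↦ absurd (Nat.le_of_dvd hy hd) (by omega)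

theorem Rep4_of_prime {w r : ℕ} (hw : w.Prime) (hr : P3 r) (h : r < w ^ 2) : Rep4 (w ^ 2 + r) := by
  obtain ⟨z, x, y, hz, hx, hy, hxy, hzx, hzy, hc⟩ := hr
  have key : ∀ t : ℕ, 0 < t → t ^ 2 ≤ r → w.Coprime t := by
    intro t ht htr
    refine (Nat.Prime.coprime_iff_not_dvd hw).mpr fun hd ↦ ?_
    have h1 := Nat.le_of_dvd ht hd
    nlinarith [Nat.mul_le_mul h1 h1]
  refine ⟨w, z, x, y, by rw [← hxy]; ring, key z hz ?_, key x hx ?_, key y hy ?_, hzx, hzy, hc⟩ <;>
  · rw [← hxy]; nlinarith [sq_nonneg x, sq_nonneg y, sq_nonneg z]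

namespace Bits

/-- doubling: copies of `m` shifted by the multiples `0, s, 2s, ..., (2^k-1) s` -/
def rep : ℕ → ℕ → ℕ → ℕ
  | 0, _, m => m
  | k + 1, s, m => rep k (s + s) (m ||| (m <<< s))

/-- completeness of `rep` -/
theorem rep_cpl {Q : ℕ → Prop} (k : ℕ) : ∀ s m : ℕ, (∀ i, Q (i + s) → Q i) →
    (∀ i, i < s → Q i → m.testBit i = true) →
    ∀ i, i < s * 2 ^ k → Q i → (rep k s m).testBit i = true := by
  induction k with
  | zero => intro s m _ h i hi hq; exact h i (by simpa using hi) hq
  | succ k ih =>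
    intro s m hs h i hi hq
    refine ih (s + s) (m ||| (m <<< s)) ?_ ?_ i (by rw [pow_succ] at hi; linarith) hq
    · intro i hq
      rw [← add_assoc] at hq
      exact hs _ (hs _ hq)
    · intro i hi hq
      rw [Nat.testBit_or, Bool.or_eq_true, Nat.testBit_shiftLeft]
      rcases Nat.lt_or_ge i s with h1 | h1
      · left; exact h i h1 hq
      · right
        have h2 : i - s + s = i := by omega
        have h3 := h (i - s) (by omega) (hs _ (by rw [h2]; exact hq))
        rw [h3]
        simp [h1]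

/-- soundness of `rep` -/
theorem rep_snd {Q : ℕ → Prop} (k : ℕ) : ∀ s m : ℕ, (∀ i, Q i → Q (i + s)) →
    (∀ i, m.testBit i = true → Q i) → ∀ i, (rep k s m).testBit i = true → Q i := by
  induction k with
  | zero => intro s m _ h i hi; exact h i hi
  | succ k ih =>
    intro s m hs h i hi
    refine ih (s + s) (m ||| (m <<< s)) ?_ ?_ i hi
    · intro i hq
      rw [← add_assoc]
      exact hs _ (hs _ hq)
    · intro i hi
      rw [Nat.testBit_or, Bool.or_eq_true, Nat.testBit_shiftLeft] at hi
      rcases hi with h1 | h1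
      · exact h i h1
      · rw [Bool.and_eq_true] at h1
        obtain ⟨h2, h3⟩ := h1
        have h2' : s ≤ i := by simpa using h2
        have h4 : i - s + s = i := by omega
        rw [← h4]
        exact hs _ (h _ h3)

/-- the multiples of `q` below `q * 2^k` -/
theorem rep_mul {q : ℕ} (k : ℕ) {i : ℕ} (hi : i < q * 2 ^ k) (hd : q ∣ i) :
    (rep k q 1).testBit i = true := by
  refine rep_cpl (Q := fun i ↦ q ∣ i) k q 1 ?_ ?_ i hi hd
  · intro i h
    exact (Nat.dvd_add_left (dvd_refl q)).mp h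
  · intro i hi hd
    have : i = 0 := Nat.eq_zero_of_dvd_of_lt hd hi
    subst this
    rfl

/-- `x` and not `b` -/
theorem diff_bit {x b i : ℕ} (h : ((x ||| b) ^^^ b).testBit i = true) :
    x.testBit i = true ∧ b.testBit i = false := by
  rw [Nat.testBit_xor, Nat.testBit_or] at h
  cases hx : x.testBit i <;> cases hb : b.testBit i <;> simp_all

/-- union of `{1}` and the multiples (below `2^K`) of `q = 4 i + 3`, `i < k` -/
def sieve (K : ℕ) : ℕ → ℕ
  | 0 => 2
  | k + 1 => sieve K k ||| rep (K - (4 * k + 3).log2) (4 * k + 3) 1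

theorem sieve_one (K k : ℕ) : (sieve K k).testBit 1 = true := by
  induction k with
  | zero => unfold sieve; decide
  | succ k ih =>
    unfold sieve
    rw [Nat.testBit_or, ih, Bool.true_or]

theorem sieve_cpl (K k i q : ℕ) (hq : q % 4 = 3) (hk : q < 4 * k + 3) (hi : i < 2 ^ K)
    (hd : q ∣ i) : (sieve K k).testBit i = true := by
  induction k with
  | zero => omega
  | succ k ih =>
    unfold sieve
    rw [Nat.testBit_or, Bool.or_eq_true]
    rcases Nat.lt_or_ge q (4 * k + 3) with h | h
    · left; exact ih h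
    · right
      have : q = 4 * k + 3 := by omega
      subst this
      refine rep_mul _ (lt_of_lt_of_le hi ?_) hd
      have h1 : 2 ^ (4 * k + 3).log2 ≤ 4 * k + 3 := Nat.log2_self_le (by omega)
      rcases Nat.le_total (4 * k + 3).log2 K with h2 | h2
      · calc 2 ^ K = 2 ^ (4 * k + 3).log2 * 2 ^ (K - (4 * k + 3).log2) := by
              rw [← pow_add]; congr 1; omega
          _ ≤ _ := Nat.mul_le_mul_right _ h1
      · rw [Nat.sub_eq_zero_of_le h2, pow_zero, mul_one]
        exact le_trans (Nat.pow_le_pow_right (by norm_num) h2) h1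

/-- the bit set of primitive sums of two squares (below `2^K`), from a sieve -/
def tab (K J k : ℕ) : ℕ := (rep J 8 38 ||| sieve K k) ^^^ sieve K k

theorem tab_snd {K J k l : ℕ} (hl : l < 2 ^ K) (hk : l < (4 * k + 3) ^ 2)
    (h : (tab K J k).testBit l = true) : P2 l := by
  obtain ⟨h1, h2⟩ := diff_bit h
  have h3 : l % 8 = 1 ∨ l % 8 = 5 ∨ l % 8 = 2 := by
    refine rep_snd (Q := fun l ↦ l % 8 = 1 ∨ l % 8 = 5 ∨ l % 8 = 2) J 8 38 ?_ ?_ l h1
    · intro i hi; omega
    · intro i hi
      rcases Nat.lt_or_ge i 8 with h | h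
      · interval_cases i <;> revert hi <;> decide
      · exfalso
        have : (38 : ℕ).testBit i = false := by
          apply Nat.testBit_eq_false_of_lt
          calc 38 < 2 ^ 8 := by norm_num
            _ ≤ 2 ^ i := Nat.pow_le_pow_right (by norm_num) h
        rw [this] at hi
        exact absurd hi (by decide)
  have key : ∀ q : ℕ, q % 4 = 3 → q ∣ l → False := by
    have hsmall : ∀ q : ℕ, q % 4 = 3 → q < 4 * k + 3 → q ∣ l → False := by
      intro q hq hqk hd
      have h4 := sieve_cpl K k l q hq hqk hl hd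
      rw [h4] at h2
      exact absurd h2 (by decide)
    intro q hq hd
    rcases Nat.lt_or_ge q (4 * k + 3) with h | h
    · exact hsmall q hq h hd
    · obtain ⟨c, hc⟩ := hd
      have hc1 : c < 4 * k + 3 := by
        by_contra hcon
        push Not at hcon
        nlinarith [Nat.mul_le_mul h hcon]
      have hqc : l % 8 = ((q % 8) * (c % 8)) % 8 := by rw [hc, Nat.mul_mod]
      have hq8 : q % 8 = 3 ∨ q % 8 = 7 := by omega
      have hc8 : c % 8 = 0 ∨ c % 8 = 1 ∨ c % 8 = 2 ∨ c % 8 = 3 ∨ c % 8 = 4 ∨ c % 8 = 5 ∨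
        c % 8 = 6 ∨ c % 8 = 7 := by omega
      have hcc : c % 4 = 3 ∨ c % 8 = 6 := by
        rcases hq8 with e | e <;> rcases hc8 with f | f | f | f | f | f | f | f <;>
          rw [e, f] at hqc <;> omega
      rcases hcc with e | e
      · exact hsmall c e hc1 ⟨q, by rw [hc]; ring⟩
      · obtain ⟨c', hc'⟩ : ∃ c', c = 2 * c' := ⟨c / 2, by omega⟩
        exact hsmall c' (by omega) (by omega) ⟨2 * q, by rw [hc, hc']; ring⟩
  refine stVA l ?_ ?_ ?_
  · by_contra hcon
    have : l = 1 := by omega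
    subst this
    rw [sieve_one] at h2
    exact absurd h2 (by decide)
  · omega
  · intro q _ hq hd
    exact key q hq hd

/-- union of the sets `z^2 + {l in T : l < z^2}` -/
def su (T : ℕ) : List ℕ → ℕ
  | [] => 0
  | z :: L => su T L ||| ((T % 2 ^ (z * z)) <<< (z * z))

theorem su_snd {T : ℕ} (L : List ℕ) {i : ℕ} (h : (su T L).testBit i = true) :
    ∃ z ∈ L, ∃ l, i = z ^ 2 + l ∧ l < z ^ 2 ∧ T.testBit l = true := by
  induction L with
  | nil =>
    unfold su at h
    rw [Nat.zero_testBit] at h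
    exact absurd h (by decide)
  | cons z L ih =>
    unfold su at h
    rw [Nat.testBit_or, Bool.or_eq_true, Nat.testBit_shiftLeft, Nat.testBit_mod_two_pow] at h
    rcases h with h | h
    · obtain ⟨z', hz', l, h1⟩ := ih h
      exact ⟨z', List.mem_cons_of_mem _ hz', l, h1⟩
    · rw [Bool.and_eq_true, Bool.and_eq_true] at h
      obtain ⟨h1, h2, h3⟩ := h
      have h1' : z * z ≤ i := by simpa using h1
      have h2' : i - z * z < z * z := by simpa using h2
      exact ⟨z, List.mem_cons_self .., i - z * z, by rw [pow_two]; omega, by rw [pow_two]; exact h2', h3⟩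

/-- bit set of a list -/
def ofList : List ℕ → ℕ
  | [] => 0
  | z :: L => ofList L ||| (1 <<< z)

theorem ofList_snd (L : List ℕ) {i : ℕ} (h : (ofList L).testBit i = true) : i ∈ L := by
  induction L with
  | nil =>
    unfold ofList at h
    rw [Nat.zero_testBit] at h
    exact absurd h (by decide)
  | cons z L ih =>
    unfold ofList at h
    rw [Nat.testBit_or, Bool.or_eq_true, Nat.one_shiftLeft, Nat.testBit_two_pow] at h
    rcases h with h | h
    · exact List.mem_cons_of_mem _ (ih h)
    · have : z = i := by simpa using h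
      rw [this]; exact List.mem_cons_self ..

/-- all bits below `K` are set in `x ||| y` -/
theorem all_bits {K x : ℕ} (h : x % 2 ^ K = 2 ^ K - 1) {i : ℕ} (hi : i < K) :
    x.testBit i = true := by
  have h1 : (x % 2 ^ K).testBit i = true := by
    rw [h, Nat.testBit_two_pow_sub_one]
    simpa using hi
  rw [Nat.testBit_mod_two_pow] at h1
  rw [Bool.and_eq_true] at h1
  exact h1.2

end Bits

end Pool.Agent.Lib.MP_0e0027_nt.Ex
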