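import Pool.Agent.Lib.MP_0e0027_nt.Ex.V.ChainM

/-!
Chain of primes from 524309 to 4302131 (generated).
-/

set_option autoImplicit false

namespace Pool.Agent.Lib.MP_0e0027_nt.Ex

namespace Chain

theorem CA00_0 : outer M 21661 16 (2 ^ 128) 870679 1
    0x010b030b09011f1707030d1f0d190d0b
    524309 = true := by
  decide +kernel

theorem CA00_1 : outer M 16670 16 (2 ^ 128) 1137109 1
    0x140e1a2c0038040008020a003a081810
    870679 = true := by
  decide +kernel

theorem CA00_2 : outer M 13966 16 (2 ^ 128) 1360441 1
    0x08000216000204060800021802042206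
    1137109 = true := by
  decide +kernel

theorem CA00_3 : outer M 12226 16 (2 ^ 128) 1555919 1
    0x1010120806040e0a0c04080400040e00
    1360441 = true := by
  decide +kernel

theorem CA00_4 : outer M 10993 16 (2 ^ 128) 1731593 1
    0x1307070f0b0f171b01050d150d0b0713
    1555919 = true := by
  decide +kernel

theorem CA00_5 : outer M 10064 16 (2 ^ 128) 1892431 1
    0x020802020802141e02221a001c140200
    1731593 = true := by
  decide +kernel

theorem CA00_6 : outer M 9333 16 (2 ^ 128) 2041537 1
    0x090d3b1b091503090309150709090905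
    1892431 = true := by
  decide +kernel

theorem CA00_7 : outer M 8738 16 (2 ^ 128) 2181209 1
    0x02020a24021008060210060a08080202
    2041537 = true := by
  decide +kernel

theorem CA00_8 : outer M 8242 16 (2 ^ 128) 2312809 1
    0x2c0c22023a0004020c040e0c20000a20
    2181209 = true := by
  decide +kernel

theorem CA00_9 : outer M 7821 16 (2 ^ 128) 2437741 1
    0x030909012921011d030111010b0f1b03
    2312809 = true := by
  decide +kernel

theorem CA00_10 : outer M 7458 16 (2 ^ 128) 2556913 1
    0x181e0a0c08001c060000060000080612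
    2437741 = true := by
  decide +kernel

theorem CA00_11 : outer M 7140 16 (2 ^ 128) 2670973 1
    0x2200000216000c08120a080a14180c00
    2556913 = true := by
  decide +kernel

theorem CA00_12 : outer M 6860 16 (2 ^ 128) 2780467 1
    0x140208061a28001638020e0e1a00100e
    2670973 = true := by
  decide +kernel

theorem CA00_13 : outer M 6610 16 (2 ^ 128) 2886029 1
    0x040a0a040a063204060a141220000a04
    2780467 = true := by
  decide +kernel

theorem CA00_14 : outer M 6385 16 (2 ^ 128) 2987969 1
    0x0d330d0b010f19011103071101071b0b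
    2886029 = true := by
  decide +kernel

theorem CA00_15 : outer M 6181 16 (2 ^ 128) 3086729 1
    0x010101031101030b1303051b011d0d01
    2987969 = true := by
  decide +kernel

theorem CA00_16 : outer M 5995 16 (2 ^ 128) 3182411 1
    0x070901190b072d29090b1909071d0101
    3086729 = true := by
  decide +kernel

theorem CA00_17 : outer M 5825 16 (2 ^ 128) 3275359 1
    0x030135051b011b0b010533071711050f
    3182411 = true := by
  decide +kernel

theorem CA00_18 : outer M 5669 16 (2 ^ 128) 3365963 1
    0x050b050103070f050d09050501050307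
    3275359 = true := by
  decide +kernel

theorem CA00_19 : outer M 5524 16 (2 ^ 128) 3454097 1
    0x0a00080c02120234220c04380604041a
    3365963 = true := by
  decide +kernel

theorem CA00_20 : outer M 5390 16 (2 ^ 128) 3540203 1
    0x08020402080e26020610060a020c0400
    3454097 = true := by
  decide +kernel

theorem CA00_21 : outer M 5151 16 (2 ^ 128) 3704731 2
    0x0301110309092b090b030105010501210b03011707050703110315010509071b
    3540203 = true := by
  decide +kernel

theorem CA00_22 : outer M 4941 16 (2 ^ 128) 3862427 2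
    0x030b0309011709090d0f050f3903151503031b090301170307231b01150b0d0b
    3704731 = true := by
  decide +kernel

theorem CA00_23 : outer M 4754 16 (2 ^ 128) 4014203 2
    0x021408020802040c02040e120e020204061c00021a080a2c081e2208020e0e00
    3862427 = true := by
  decide +kernel

theorem CA00_24 : outer M 4587 16 (2 ^ 128) 4160579 2
    0x09091715030903071109010b030705090f0d090b011721090d1d250b150d0315
    4014203 = true := by
  decide +kernel

theorem CA00_25 : outer M 4436 16 (2 ^ 128) 4302131 2
    0x08020e0a0e08200220061a0e0a0e001a021a1428000e100806020a020206021a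
    4160579 = true := by
  decide +kernel

theorem CA00 (h0 : Nat.Prime 524309) : Nat.Prime 4302131 ∧ Seg 38200000000 524309 4302131 := by
  obtain ⟨h1, s1⟩ := outer_snd (R := 38200000000) (U := 870885) M_ok (by norm_num) (by norm_num) 1 _ _ h0
    (by norm_num) CA00_0
  obtain ⟨h2, s2⟩ := outer_snd (R := 38200000000) (U := 1137399) M_ok (by norm_num) (by norm_num) 1 _ _ h1
    (by norm_num) CA00_1
  obtain ⟨h3, s3⟩ := outer_snd (R := 38200000000) (U := 1360565) M_ok (by norm_num) (by norm_num) 1 _ _ h2
    (by norm_num) CA00_2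
  obtain ⟨h4, s4⟩ := outer_snd (R := 38200000000) (U := 1556057) M_ok (by norm_num) (by norm_num) 1 _ _ h3
    (by norm_num) CA00_3
  obtain ⟨h5, s5⟩ := outer_snd (R := 38200000000) (U := 1731807) M_ok (by norm_num) (by norm_num) 1 _ _ h4
    (by norm_num) CA00_4
  obtain ⟨h6, s6⟩ := outer_snd (R := 38200000000) (U := 1892617) M_ok (by norm_num) (by norm_num) 1 _ _ h5
    (by norm_num) CA00_5
  obtain ⟨h7, s7⟩ := outer_snd (R := 38200000000) (U := 2041759) M_ok (by norm_num) (by norm_num) 1 _ _ h6
    (by norm_num) CA00_6
  obtain ⟨h8, s8⟩ := outer_snd (R := 38200000000) (U := 2181345) M_ok (by norm_num) (by norm_num) 1 _ _ h7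
    (by norm_num) CA00_7
  obtain ⟨h9, s9⟩ := outer_snd (R := 38200000000) (U := 2313081) M_ok (by norm_num) (by norm_num) 1 _ _ h8
    (by norm_num) CA00_8
  obtain ⟨h10, s10⟩ := outer_snd (R := 38200000000) (U := 2437945) M_ok (by norm_num) (by norm_num) 1 _ _ h9
    (by norm_num) CA00_9
  obtain ⟨h11, s11⟩ := outer_snd (R := 38200000000) (U := 2557069) M_ok (by norm_num) (by norm_num) 1 _ _ h10
    (by norm_num) CA00_10
  obtain ⟨h12, s12⟩ := outer_snd (R := 38200000000) (U := 2671153) M_ok (by norm_num) (by norm_num) 1 _ _ h11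
    (by norm_num) CA00_11
  obtain ⟨h13, s13⟩ := outer_snd (R := 38200000000) (U := 2780733) M_ok (by norm_num) (by norm_num) 1 _ _ h12
    (by norm_num) CA00_12
  obtain ⟨h14, s14⟩ := outer_snd (R := 38200000000) (U := 2886227) M_ok (by norm_num) (by norm_num) 1 _ _ h13
    (by norm_num) CA00_13
  obtain ⟨h15, s15⟩ := outer_snd (R := 38200000000) (U := 2988189) M_ok (by norm_num) (by norm_num) 1 _ _ h14
    (by norm_num) CA00_14
  obtain ⟨h16, s16⟩ := outer_snd (R := 38200000000) (U := 3086865) M_ok (by norm_num) (by norm_num) 1 _ _ h15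
    (by norm_num) CA00_15
  obtain ⟨h17, s17⟩ := outer_snd (R := 38200000000) (U := 3182649) M_ok (by norm_num) (by norm_num) 1 _ _ h16
    (by norm_num) CA00_16
  obtain ⟨h18, s18⟩ := outer_snd (R := 38200000000) (U := 3275611) M_ok (by norm_num) (by norm_num) 1 _ _ h17
    (by norm_num) CA00_17
  obtain ⟨h19, s19⟩ := outer_snd (R := 38200000000) (U := 3366063) M_ok (by norm_num) (by norm_num) 1 _ _ h18
    (by norm_num) CA00_18
  obtain ⟨h20, s20⟩ := outer_snd (R := 38200000000) (U := 3454347) M_ok (by norm_num) (by norm_num) 1 _ _ h19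
    (by norm_num) CA00_19
  obtain ⟨h21, s21⟩ := outer_snd (R := 38200000000) (U := 3540337) M_ok (by norm_num) (by norm_num) 1 _ _ h20
    (by norm_num) CA00_20
  obtain ⟨h22, s22⟩ := outer_snd (R := 38200000000) (U := 3705035) M_ok (by norm_num) (by norm_num) 2 _ _ h21
    (by norm_num) CA00_21
  obtain ⟨h23, s23⟩ := outer_snd (R := 38200000000) (U := 3862843) M_ok (by norm_num) (by norm_num) 2 _ _ h22
    (by norm_num) CA00_22
  obtain ⟨h24, s24⟩ := outer_snd (R := 38200000000) (U := 4014555) M_ok (by norm_num) (by norm_num) 2 _ _ h23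
    (by norm_num) CA00_23
  obtain ⟨h25, s25⟩ := outer_snd (R := 38200000000) (U := 4160987) M_ok (by norm_num) (by norm_num) 2 _ _ h24
    (by norm_num) CA00_24
  obtain ⟨h26, s26⟩ := outer_snd (R := 38200000000) (U := 4302531) M_ok (by norm_num) (by norm_num) 2 _ _ h25
    (by norm_num) CA00_25
  exact ⟨h26, (((((((((((((((((((((((((s1.trans s2).trans s3).trans s4).trans s5).trans s6).trans s7).trans s8).trans s9).trans s10).trans s11).trans s12).trans s13).trans s14).trans s15).trans s16).trans s17).trans s18).trans s19).trans s20).trans s21).trans s22).trans s23).trans s24).trans s25).trans s26)⟩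

end Chain

end Pool.Agent.Lib.MP_0e0027_nt.Ex
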