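import Mathlib.Tactic.NormNum.Prime
import Pool.Agent.Lib.MP_0e0027_nt.Ex.V.CA00
import Pool.Agent.Lib.MP_0e0027_nt.Ex.V.CA01
import Pool.Agent.Lib.MP_0e0027_nt.Ex.V.CA02
import Pool.Agent.Lib.MP_0e0027_nt.Ex.V.CA03
import Pool.Agent.Lib.MP_0e0027_nt.Ex.V.CA04
import Pool.Agent.Lib.MP_0e0027_nt.Ex.V.CA05
import Pool.Agent.Lib.MP_0e0027_nt.Ex.V.CC00
import Pool.Agent.Lib.MP_0e0027_nt.Ex.V.CC01
import Pool.Agent.Lib.MP_0e0027_nt.Ex.V.CC02
import Pool.Agent.Lib.MP_0e0027_nt.Ex.V.CC03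
import Pool.Agent.Lib.MP_0e0027_nt.Ex.V.CC04
import Pool.Agent.Lib.MP_0e0027_nt.Ex.V.CC05
import Pool.Agent.Lib.MP_0e0027_nt.Ex.V.CC06
import Pool.Agent.Lib.MP_0e0027_nt.Ex.V.CC07
import Pool.Agent.Lib.MP_0e0027_nt.Ex.V.CC08

/-!
The chains of primes `w`: for every `n` there is a prime `w` with `w^2 + 35535 <= n < w^2 + R`
and `n < 2 w^2`.
-/

set_option autoImplicit false

namespace Pool.Agent.Lib.MP_0e0027_nt.Ex

namespace Chain

/-- the first primes of the chain -/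
def low : List ℕ := [
  631, 863, 1201, 1669, 2351, 3319, 4679, 6607, 9341, 13187, 18637, 26347, 37253, 52673, 74489,
  105341, 148961, 210659, 287347, 347513, 398693, 444007, 485113, 522989, 524309]

/-- check of consecutive elements -/
def lowchk (R m0 wend : ℕ) : ℕ → List ℕ → Bool
  | w, [] => w == wend
  | w, w' :: L => decide (w' ^ 2 + m0 ≤ 2 * w ^ 2) && (decide (w' ^ 2 ≤ w ^ 2 + R) &&
      lowchk R m0 wend w' L)

theorem lowchk_snd {R m0 wend : ℕ} (L : List ℕ) : ∀ w : ℕ, w.Prime → (∀ p ∈ L, p.Prime) →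
    lowchk R m0 wend w L = true → ∀ n, w ^ 2 + m0 ≤ n → n < wend ^ 2 + m0 →
    ∃ w, w.Prime ∧ w ^ 2 + m0 ≤ n ∧ n < w ^ 2 + (R + m0) ∧ n < 2 * w ^ 2 := by
  induction L with
  | nil =>
    intro w _ _ h n h1 h2
    unfold lowchk at h
    have : w = wend := by simpa using h
    subst this
    omega
  | cons w' L ih =>
    intro w hw hL h n h1 h2
    unfold lowchk at h
    rw [Bool.and_eq_true, Bool.and_eq_true, decide_eq_true_eq, decide_eq_true_eq] at h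
    obtain ⟨h3, h4, h5⟩ := h
    rcases Nat.lt_or_ge n (w' ^ 2 + m0) with h6 | h6
    · exact ⟨w, hw, h1, by omega, by omega⟩
    · exact ih w' (hL w' (List.mem_cons_self ..)) (fun p hp ↦ hL p (List.mem_cons_of_mem _ hp))
        h5 n h6 h2

theorem of_seg {R A B m0 n : ℕ} (h : Seg R A B) (h1 : A ^ 2 + m0 ≤ n) (h2 : n < B ^ 2 + m0)
    (h3 : 2 * (R + m0) ≤ n) :
    ∃ w, w.Prime ∧ w ^ 2 + m0 ≤ n ∧ n < w ^ 2 + (R + m0) ∧ n < 2 * w ^ 2 := by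
  have e1 : (n - m0).sqrt ^ 2 ≤ n - m0 := Nat.sqrt_le' _
  have e2 : n - m0 < ((n - m0).sqrt + 1) ^ 2 := Nat.lt_succ_sqrt' _
  have e3 : A ≤ (n - m0).sqrt := by
    rw [Nat.le_sqrt']; omega
  have e4 : (n - m0).sqrt < B := by
    by_contra hcon
    push Not at hcon
    have := Nat.pow_le_pow_left hcon 2
    omega
  obtain ⟨w, hw, h4, h5⟩ := h _ e3 e4
  have e5 : w ^ 2 ≤ (n - m0).sqrt ^ 2 := Nat.pow_le_pow_left h4 2
  exact ⟨w, hw, by omega, by omega, by omega⟩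

theorem prime0 : Nat.Prime 467 := by norm_num

theorem prime1 : Nat.Prime 524309 := by norm_num

theorem low_prime : ∀ p ∈ low, p.Prime := by
  unfold low
  simp only [List.mem_cons, List.not_mem_nil, or_false, forall_eq_or_imp, forall_eq]
  norm_num

theorem low_chk : lowchk 38200000000 35535 524309 467 low = true := by decide +kernel

theorem segA : Nat.Prime 107520991 ∧ Seg 38200000000 524309 107520991 := by
  obtain ⟨p1, s1⟩ := CA00 prime1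
  obtain ⟨p2, s2⟩ := CA01 p1
  obtain ⟨p3, s3⟩ := CA02 p2
  obtain ⟨p4, s4⟩ := CA03 p3
  obtain ⟨p5, s5⟩ := CA04 p4
  obtain ⟨p6, s6⟩ := CA05 p5
  exact ⟨p6, (((((s1.trans s2).trans s3).trans s4).trans s5).trans s6)⟩

theorem segC : Nat.Prime 436022351 ∧ Seg 214200000000 107520991 436022351 := by
  obtain ⟨p0, _⟩ := segA
  obtain ⟨p1, s1⟩ := CC00 p0
  obtain ⟨p2, s2⟩ := CC01 p1
  obtain ⟨p3, s3⟩ := CC02 p2
  obtain ⟨p4, s4⟩ := CC03 p3
  obtain ⟨p5, s5⟩ := CC04 p4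
  obtain ⟨p6, s6⟩ := CC05 p5
  obtain ⟨p7, s7⟩ := CC06 p6
  obtain ⟨p8, s8⟩ := CC07 p7
  obtain ⟨p9, s9⟩ := CC08 p8
  exact ⟨p9, ((((((((s1.trans s2).trans s3).trans s4).trans s5).trans s6).trans s7).trans s8).trans s9)⟩

/-- the chain for `n < 1.15 * 10^16`, step `3.83 * 10^10` -/
theorem chainA (n : ℕ) (h1 : 2 ^ 18 ≤ n) (h2 : n < 115 * 10 ^ 14) :
    ∃ w, w.Prime ∧ w ^ 2 + 35535 ≤ n ∧ n < w ^ 2 + 38300000000 ∧ n < 2 * w ^ 2 := by
  rcases Nat.lt_or_ge n (524309 ^ 2 + 35535) with h | h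
  · obtain ⟨w, hw, h3, h4, h5⟩ := lowchk_snd low 467 prime0 low_prime low_chk n (by omega) h
    exact ⟨w, hw, h3, by omega, h5⟩
  · obtain ⟨w, hw, h3, h4, h5⟩ := of_seg segA.2 h (by omega) (by omega)
    exact ⟨w, hw, h3, by omega, h5⟩

/-- the chain for `n < 1.9 * 10^17`, step `2.145 * 10^11` -/
theorem chainC (n : ℕ) (h1 : 2 ^ 18 ≤ n) (h2 : n < 19 * 10 ^ 16) :
    ∃ w, w.Prime ∧ w ^ 2 + 35535 ≤ n ∧ n < w ^ 2 + 214500000000 ∧ n < 2 * w ^ 2 := by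
  rcases Nat.lt_or_ge n (115 * 10 ^ 14) with h | h
  · obtain ⟨w, hw, h3, h4, h5⟩ := chainA n h1 h
    exact ⟨w, hw, h3, by omega, h5⟩
  · rcases Nat.lt_or_ge n (107520991 ^ 2 + 35535) with h0 | h0
    · obtain ⟨w, hw, h3, h4, h5⟩ := of_seg segA.2 (by omega) h0 (by omega)
      exact ⟨w, hw, h3, by omega, h5⟩
    · obtain ⟨w, hw, h3, h4, h5⟩ := of_seg segC.2 h0 (by omega) (by omega)
      exact ⟨w, hw, h3, by omega, h5⟩

end Chain

end Pool.Agent.Lib.MP_0e0027_nt.Ex
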