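import Pool.Agent.Lib.MP_0e0027_nt.Ex.V.Bits

/-!
Chains of primes with kernel certificates.
-/

set_option autoImplicit false

namespace Pool.Agent.Lib.MP_0e0027_nt.Ex

namespace Chain

/-- for every `s` in `[A, B)` there is a prime `w <= s` with `(s+1)^2 <= w^2 + R` -/
def Seg (R A B : ℕ) : Prop := ∀ s, A ≤ s → s < B → ∃ w, w.Prime ∧ w ≤ s ∧ (s + 1) ^ 2 ≤ w ^ 2 + R

theorem Seg.trans {R A B C : ℕ} (h1 : Seg R A B) (h2 : Seg R B C) : Seg R A C := by
  intro s hA hC
  rcases Nat.lt_or_ge s B with h | h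
  · exact h1 s hA h
  · exact h2 s h hC

theorem Seg.mono {R R' A B : ℕ} (h : Seg R A B) (hR : R ≤ R') : Seg R' A B := by
  intro s hA hB
  obtain ⟨w, h1, h2, h3⟩ := h s hA hB
  exact ⟨w, h1, h2, by omega⟩

theorem Seg.step {R w w' : ℕ} (hw : w.Prime) (h : w' ^ 2 ≤ w ^ 2 + R) : Seg R w w' := by
  intro s hA hB
  exact ⟨w, hw, hA, le_trans (Nat.pow_le_pow_left hB 2) h⟩

/-- one block: `K` chain elements given by the bytes of `data` (the next element is
`w + (D - byte)`), their product must be coprime to `M`, then continue with `κ` -/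
def inner (M D K : ℕ) : ℕ → ℕ → ℕ → (ℕ → Bool) → Bool :=
  Nat.rec (fun _ w P κ ↦ cond (Nat.beq (Nat.gcd P M) 1) (κ w) false)
    (fun _ ih data w P κ ↦ (fun w' ↦ ih (Nat.div data 256) w' (Nat.mul P w') κ)
      (Nat.add w (Nat.sub D (Nat.mod data 256)))) K

/-- `J` blocks of `K` elements -/
def outer (M D K C wend J : ℕ) : ℕ → ℕ → Bool :=
  Nat.rec (fun _ w ↦ Nat.beq w wend)
    (fun _ ih data w ↦ inner M D K (Nat.mod data C) w 1 (ih (Nat.div data C))) J

/-- every prime `q <= B` divides `M` -/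
def chk (M B : ℕ) : Bool :=
  Nat.rec true (fun k ih ↦ cond (Nat.beq (Nat.gcd (Nat.add k 2) M) 1) false ih) B

theorem chk_snd {M B : ℕ} (h : chk M B = true) : ∀ q, q.Prime → q ≤ B + 1 → q ∣ M := by
  induction B with
  | zero =>
    intro q hq hqB
    have := hq.two_le
    omega
  | succ k ih =>
    intro q hq hqB
    have h1 : cond (Nat.beq (Nat.gcd (k + 2) M) 1) false (chk M k) = true := h
    rcases Nat.lt_or_ge q (k + 2) with h2 | h2
    · cases hb : Nat.beq (Nat.gcd (k + 2) M) 1 with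
      | true => rw [hb] at h1; exact absurd h1 Bool.false_ne_true
      | false => rw [hb] at h1; exact ih h1 q hq (by omega)
    · have hqk : q = k + 2 := by omega
      cases hb : Nat.beq (Nat.gcd (k + 2) M) 1 with
      | true => rw [hb] at h1; exact absurd h1 Bool.false_ne_true
      | false =>
        have h3 : Nat.gcd q M ≠ 1 := by
          rw [hqk]
          exact Nat.ne_of_beq_eq_false hb
        rcases (Nat.dvd_prime hq).mp (Nat.gcd_dvd_left q M) with h4 | h4
        · exact absurd h4 h3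
        · rw [← h4]; exact Nat.gcd_dvd_right q M

theorem prime_of_coprime {M B w : ℕ} (hM : ∀ q, q.Prime → q ≤ B → q ∣ M) (hw : 2 ≤ w)
    (hB : w < (B + 1) ^ 2) (h : Nat.gcd w M = 1) : w.Prime := by
  by_contra hcon
  have h1 : w.minFac ^ 2 ≤ w := Nat.minFac_sq_le_self (by omega) hcon
  have h2 : w.minFac.Prime := Nat.minFac_prime (by omega)
  have h3 : w.minFac ≤ B := by
    by_contra h4
    push Not at h4
    nlinarith [Nat.mul_le_mul h4 h4]
  have h5 := hM _ h2 h3
  have h6 : w.minFac ∣ Nat.gcd w M := Nat.dvd_gcd (Nat.minFac_dvd w) h5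
  rw [h] at h6
  exact h2.one_lt.ne' (Nat.dvd_one.mp h6)

/-- the product accumulated so far is coprime to `M` -/
theorem inner_gcd {M D : ℕ} (K : ℕ) : ∀ (data w P : ℕ) (κ : ℕ → Bool),
    inner M D K data w P κ = true → Nat.gcd P M = 1 := by
  induction K with
  | zero =>
    intro data w P κ h
    have h1 : cond (Nat.beq (Nat.gcd P M) 1) (κ w) false = true := h
    cases hb : Nat.beq (Nat.gcd P M) 1 with
    | false => rw [hb] at h1; exact absurd h1 Bool.false_ne_true
    | true => exact Nat.eq_of_beq_eq_true hb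
  | succ K ih =>
    intro data w P κ h
    have h1 : inner M D K (data / 256) (w + (D - data % 256)) (P * (w + (D - data % 256))) κ =
        true := h
    exact Nat.Coprime.coprime_mul_right (ih _ _ _ _ h1)

/-- soundness of `inner` -/
theorem inner_snd {M D R U B : ℕ} (hM : ∀ q, q.Prime → q ≤ B → q ∣ M)
    (hU : U < (B + 1) ^ 2) (hR : 2 * D * U + D * D ≤ R) (K : ℕ) :
    ∀ (data w P : ℕ) (κ : ℕ → Bool), w.Prime → w + K * D ≤ U →
    inner M D K data w P κ = true →
    ∃ w', w'.Prime ∧ w' ≤ w + K * D ∧ Seg R w w' ∧ κ w' = true := by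
  induction K with
  | zero =>
    intro data w P κ hw _ h
    have h1 : cond (Nat.beq (Nat.gcd P M) 1) (κ w) false = true := h
    cases hb : Nat.beq (Nat.gcd P M) 1 with
    | false => rw [hb] at h1; exact absurd h1 Bool.false_ne_true
    | true =>
      rw [hb] at h1
      exact ⟨w, hw, by omega, fun s hA hB ↦ absurd hB (by omega), h1⟩
  | succ K ih =>
    intro data w P κ hw hwK h
    obtain ⟨w1, hw1⟩ : ∃ w1, w1 = w + (D - data % 256) := ⟨_, rfl⟩
    have h1 : inner M D K (data / 256) w1 (P * w1) κ = true := by rw [hw1]; exact h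
    have hle : w1 ≤ w + D := by omega
    have hge : w ≤ w1 := by omega
    have hKD : (K + 1) * D = K * D + D := by ring
    have hpos : 2 ≤ w1 := le_trans hw.two_le hge
    have hU1 : w1 + K * D ≤ U := by omega
    have hU2 : w1 ≤ U := by omega
    have hg : Nat.gcd w1 M = 1 := Nat.Coprime.coprime_mul_left (inner_gcd K _ _ _ _ h1)
    have hp : w1.Prime := prime_of_coprime hM hpos (lt_of_le_of_lt hU2 hU) hg
    obtain ⟨w', h2, h3, h4, h5⟩ := ih (data / 256) w1 (P * w1) κ hp hU1 h1
    refine ⟨w', h2, by omega, Seg.trans (Seg.step hw ?_) h4, h5⟩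
    have h6 : w1 ^ 2 ≤ (w + D) ^ 2 := Nat.pow_le_pow_left hle 2
    have h7 : (w + D) ^ 2 = w ^ 2 + (2 * D * w + D * D) := by ring
    have h8 : 2 * D * w ≤ 2 * D * U := Nat.mul_le_mul_left _ (by omega)
    omega

/-- soundness of `outer` -/
theorem outer_snd {M D R U B K C wend : ℕ} (hM : ∀ q, q.Prime → q ≤ B → q ∣ M)
    (hU : U < (B + 1) ^ 2) (hR : 2 * D * U + D * D ≤ R) (J : ℕ) :
    ∀ (data w : ℕ), w.Prime → w + J * (K * D) ≤ U → outer M D K C wend J data w = true →
    wend.Prime ∧ Seg R w wend := by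
  induction J with
  | zero =>
    intro data w hw _ h
    have h1 : Nat.beq w wend = true := h
    have h2 : w = wend := Nat.eq_of_beq_eq_true h1
    subst h2
    exact ⟨hw, fun s hA hB ↦ absurd hB (by omega)⟩
  | succ J ih =>
    intro data w hw hwJ h
    have h1 : inner M D K (data % C) w 1 (outer M D K C wend J (data / C)) = true := h
    have hJ : (J + 1) * (K * D) = J * (K * D) + K * D := by ring
    obtain ⟨w', h2, h3, h4, h5⟩ := inner_snd hM hU hR K _ _ _ _ hw (by omega) h1
    obtain ⟨h6, h7⟩ := ih _ w' h2 (by omega) h5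
    exact ⟨h6, h4.trans h7⟩

end Chain

end Pool.Agent.Lib.MP_0e0027_nt.Ex
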