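import Pool.Agent.Lib.MP_0e0027_nt.Ex.V.Bits

/-!
Kernel verification of the small range: all admissible `n < 2^18` other than `100`, `268` are sums of
four pairwise coprime squares, and all `r < 2^18`, `35535 <= r`, in the classes
`2, 3, 6, 11, 14, 18` modulo `24` are sums of three pairwise coprime positive squares.
-/

set_option autoImplicit false

namespace Pool.Agent.Lib.MP_0e0027_nt.Ex

namespace Small

open Bits

/-- the primes below 512 -/
def P : List ℕ := [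
  2, 3, 5, 7, 11, 13, 17, 19, 23, 29, 31, 37, 41, 43, 47, 53, 59, 61, 67, 71, 73, 79, 83, 89,
  97, 101, 103, 107, 109, 113, 127, 131, 137, 139, 149, 151, 157, 163, 167, 173, 179, 181, 191,
  193, 197, 199, 211, 223, 227, 229, 233, 239, 241, 251, 257, 263, 269, 271, 277, 281, 283,
  293, 307, 311, 313, 317, 331, 337, 347, 349, 353, 359, 367, 373, 379, 383, 389, 397, 401,
  409, 419, 421, 431, 433, 439, 443, 449, 457, 461, 463, 467, 479, 487, 491, 499, 503, 509]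

/-- the primitive sums of two squares below 2^18 -/
def T : ℕ := tab 18 15 128

/-- sums of three squares -/
def B3 : ℕ := su T P

/-- sums of four squares -/
def B4 : ℕ := su B3 P

/-- the remaining cases with their representations -/
def ex : List (ℕ × ℕ × ℕ × ℕ × ℕ) := [
  (3, 0, 1, 1, 1), (4, 1, 1, 1, 1), (7, 1, 1, 1, 2), (12, 1, 1, 1, 3), (19, 1, 1, 1, 4),
  (27, 1, 1, 3, 4), (28, 1, 1, 1, 5), (43, 1, 1, 4, 5), (51, 1, 3, 4, 5), (52, 1, 1, 1, 7),
  (67, 1, 1, 4, 7), (75, 1, 3, 4, 7), (99, 3, 4, 5, 7), (103, 1, 1, 1, 10), (108, 1, 1, 5, 9),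
  (111, 1, 5, 6, 7), (115, 1, 1, 7, 8), (123, 1, 4, 5, 9), (124, 1, 1, 1, 11),
  (139, 1, 5, 7, 8), (147, 3, 5, 7, 8), (171, 4, 5, 7, 9), (219, 5, 7, 8, 9),
  (267, 4, 7, 9, 11), (271, 1, 7, 10, 11), (276, 5, 7, 9, 11), (279, 5, 6, 7, 13),
  (283, 1, 7, 8, 13), (291, 5, 8, 9, 11), (339, 5, 8, 9, 13), (387, 5, 7, 12, 13),
  (411, 5, 7, 9, 16), (459, 7, 8, 11, 15), (628, 7, 11, 13, 17), (651, 7, 12, 13, 17),
  (699, 8, 11, 15, 17), (775, 11, 13, 14, 17), (796, 5, 11, 17, 19), (819, 9, 11, 16, 19),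
  (867, 9, 13, 16, 19), (939, 13, 15, 16, 17), (1131, 15, 16, 17, 19), (1251, 11, 17, 20, 21),
  (1707, 13, 16, 21, 29), (2259, 17, 20, 27, 29)]

/-- the numbers of the remaining cases, and `100`, `268` -/
def exn : List ℕ := 100 :: 268 :: ex.map Prod.fst

theorem P_prime : ∀ p ∈ P, p.Prime := by
  have h : P.all (fun p ↦ decide (p.Prime)) = true := by decide +kernel
  intro p hp
  exact of_decide_eq_true (List.all_eq_true.mp h p hp)

theorem T_snd {l : ℕ} (hl : l < 2 ^ 18) (h : T.testBit l = true) : P2 l :=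
  tab_snd hl (by omega) h

theorem B3_snd {r : ℕ} (hr : r < 2 ^ 18) (h : B3.testBit r = true) : P3 r := by
  obtain ⟨z, hz, l, h1, h2, h3⟩ := su_snd P h
  rw [h1]
  exact P3_of_prime (P_prime z hz) (T_snd (by omega) h3) h2

theorem B4_snd {n : ℕ} (hn : n < 2 ^ 18) (h : B4.testBit n = true) : Rep4 n := by
  obtain ⟨w, hw, r, h1, h2, h3⟩ := su_snd P h
  rw [h1]
  exact Rep4_of_prime (P_prime w hw) (B3_snd (by omega) h3) h2

/-- check of the representations in `ex` -/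
def exok (t : ℕ × ℕ × ℕ × ℕ × ℕ) : Bool :=
  t.2.1 ^ 2 + t.2.2.1 ^ 2 + t.2.2.2.1 ^ 2 + t.2.2.2.2 ^ 2 == t.1 &&
  Nat.gcd t.2.1 t.2.2.1 == 1 && Nat.gcd t.2.1 t.2.2.2.1 == 1 && Nat.gcd t.2.1 t.2.2.2.2 == 1 &&
  Nat.gcd t.2.2.1 t.2.2.2.1 == 1 && Nat.gcd t.2.2.1 t.2.2.2.2 == 1 &&
  Nat.gcd t.2.2.2.1 t.2.2.2.2 == 1

theorem ex_ok : ∀ t ∈ ex, Rep4 t.1 := by
  have h : ex.all exok = true := by decide +kernel
  intro t ht
  have h1 := List.all_eq_true.mp h t ht
  simp only [exok, Bool.and_eq_true, beq_iff_eq] at h1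
  obtain ⟨⟨⟨⟨⟨⟨h0, h1⟩, h2⟩, h3⟩, h4⟩, h5⟩, h6⟩ := h1
  exact ⟨_, _, _, _, h0, h1, h2, h3, h4, h5, h6⟩

theorem check4 : ((B4 ||| ofList exn) ||| rep 14 24 16215911) % 2 ^ (2 ^ 18) = 2 ^ (2 ^ 18) - 1 := by
  decide +kernel

/-- the numbers below `k` -/
def low (k : ℕ) : ℕ := 2 ^ k - 1

theorem low_snd {k i : ℕ} (h : (low k).testBit i = true) : i < k := by
  unfold low at h
  rw [Nat.testBit_two_pow_sub_one] at h
  simpa using h

theorem check3 : ((B3 ||| low 35535) ||| rep 14 24 16496563) % 2 ^ (2 ^ 18) =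
    2 ^ (2 ^ 18) - 1 := by
  decide +kernel

theorem pat_lt {m i : ℕ} (hm : m < 2 ^ 24) (h : m.testBit i = true) : i < 24 := by
  by_contra hcon
  push Not at hcon
  have := Nat.testBit_eq_false_of_lt (lt_of_lt_of_le hm (Nat.pow_le_pow_right (by norm_num) hcon))
  rw [this] at h
  exact absurd h (by decide)

theorem nadm_snd {i : ℕ} (h : (rep 14 24 16215911).testBit i = true) : ¬ Adm i := by
  refine rep_snd (Q := fun i ↦ ¬ Adm i) 14 24 _ ?_ ?_ i h
  · intro i hi hc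
    apply hi
    unfold Adm at hc ⊢
    omega
  · intro i hi
    have h24 : i < 24 := pat_lt (by norm_num) hi
    unfold Adm
    interval_cases i <;> revert hi <;> decide

theorem ncls_snd {i : ℕ} (h : (rep 14 24 16496563).testBit i = true) :
    ¬ (i % 24 = 2 ∨ i % 24 = 3 ∨ i % 24 = 6 ∨ i % 24 = 11 ∨ i % 24 = 14 ∨ i % 24 = 18) := by
  refine rep_snd (Q := fun i ↦ ¬ (i % 24 = 2 ∨ i % 24 = 3 ∨ i % 24 = 6 ∨ i % 24 = 11 ∨
    i % 24 = 14 ∨ i % 24 = 18)) 14 24 _ ?_ ?_ i h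
  · intro i hi hc
    apply hi
    omega
  · intro i hi
    have h24 : i < 24 := pat_lt (by norm_num) hi
    interval_cases i <;> revert hi <;> decide

/-- the small range for `n` -/
theorem small4 (n : ℕ) (hn : n < 2 ^ 18) (ha : Adm n) (h1 : n ≠ 100) (h2 : n ≠ 268) : Rep4 n := by
  have h := all_bits check4 hn
  rw [Nat.testBit_or, Nat.testBit_or, Bool.or_eq_true, Bool.or_eq_true] at h
  rcases h with (h | h) | h
  · exact B4_snd hn h
  · have h3 := ofList_snd _ h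
    unfold exn at h3
    rcases List.mem_cons.mp h3 with h4 | h4
    · exact absurd h4 h1
    rcases List.mem_cons.mp h4 with h5 | h5
    · exact absurd h5 h2
    obtain ⟨t, ht, rfl⟩ := List.mem_map.mp h5
    exact ex_ok t ht
  · exact absurd ha (nadm_snd h)

/-- the small range for `r` -/
theorem small3 (r : ℕ) (hr : r < 2 ^ 18) (h0 : 35535 ≤ r)
    (ha : r % 24 = 2 ∨ r % 24 = 3 ∨ r % 24 = 6 ∨ r % 24 = 11 ∨ r % 24 = 14 ∨ r % 24 = 18) :
    P3 r := by
  have h := all_bits check3 hr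
  rw [Nat.testBit_or, Nat.testBit_or, Bool.or_eq_true, Bool.or_eq_true] at h
  rcases h with (h | h) | h
  · exact B3_snd hr h
  · exact absurd (low_snd h) (by omega)
  · exact absurd ha (ncls_snd h)

end Small

end Pool.Agent.Lib.MP_0e0027_nt.Ex
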