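import Pool.Agent.Lib.MP_0e0027_nt.Ex.V.Chain
import Pool.Agent.Lib.MP_0e0027_nt.Ex.V.Small

/-!
Assembly of group V: the verification below the thresholds from the coverage statements.
-/

set_option autoImplicit false

namespace Pool.Agent.Lib.MP_0e0027_nt.Ex

/-- coverage of the class `c` modulo `24` up to `R` -/
def Cov (c R : ℕ) : Prop := ∀ r : ℕ, 2 ^ 18 ≤ r → r < R → r % 24 = c → P3 r

/-- below `1.9 * 10^17` (`n = 1 mod 3`) and `1.15 * 10^16` (`n = 0 mod 3`) -/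
def StVer' : Prop := ∀ n : ℕ, Adm n → n ≠ 100 → n ≠ 268 → (n % 3 = 1 → n < 19 * 10 ^ 16) →
  (n % 3 = 0 → n < 115 * 10 ^ 14) → Rep4 n

namespace Glue

theorem sq_mod {w : ℕ} (hw : w.Prime) (h : 3 < w) : w ^ 2 % 24 = 1 := by
  have h2 : w % 2 ≠ 0 := by
    intro h0
    have := (Nat.prime_dvd_prime_iff_eq Nat.prime_two hw).mp (Nat.dvd_of_mod_eq_zero h0)
    omega
  have h3 : w % 3 ≠ 0 := by
    intro h0
    have := (Nat.prime_dvd_prime_iff_eq Nat.prime_three hw).mp (Nat.dvd_of_mod_eq_zero h0)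
    omega
  have h4 : w % 24 = 1 ∨ w % 24 = 5 ∨ w % 24 = 7 ∨ w % 24 = 11 ∨ w % 24 = 13 ∨ w % 24 = 17 ∨
      w % 24 = 19 ∨ w % 24 = 23 := by omega
  rw [Nat.pow_mod]
  rcases h4 with h | h | h | h | h | h | h | h <;> rw [h]

theorem cover {R n c : ℕ} (hc : c = 2 ∨ c = 3 ∨ c = 6 ∨ c = 11 ∨ c = 14 ∨ c = 18)
    (hcov : Cov c R) (hn : 2 ^ 18 ≤ n) (hm : n % 24 = c + 1)
    (h : ∃ w, w.Prime ∧ w ^ 2 + 35535 ≤ n ∧ n < w ^ 2 + R ∧ n < 2 * w ^ 2) : Rep4 n := by
  obtain ⟨w, hw, h1, h2, h3⟩ := h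
  have hw3 : 3 < w := by
    by_contra hcon
    push Not at hcon
    have := Nat.pow_le_pow_left hcon 2
    omega
  have hsq := sq_mod hw hw3
  obtain ⟨r, hr⟩ : ∃ r, n = w ^ 2 + r := ⟨n - w ^ 2, by omega⟩
  have hrc : r % 24 = c := by omega
  rw [hr]
  refine Rep4_of_prime hw ?_ (by omega)
  rcases Nat.lt_or_ge r (2 ^ 18) with h4 | h4
  · exact Small.small3 r h4 (by omega) (by omega)
  · exact hcov r h4 (by omega) hrc

end Glue

/-- group V from the coverage statements -/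
theorem glue (h18 : Cov 18 214500000000) (h6 : Cov 6 214500000000) (h3 : Cov 3 214500000000)
    (h2 : Cov 2 38300000000) (h14 : Cov 14 38300000000) (h11 : Cov 11 38300000000) : StVer' := by
  intro n ha h100 h268 hn1 hn0
  rcases Nat.lt_or_ge n (2 ^ 18) with hs | hs
  · exact Small.small4 n hs ha h100 h268
  obtain ⟨h8, hn3⟩ := ha
  have h01 : n % 3 = 0 ∨ n % 3 = 1 := by omega
  rcases h01 with h0 | h1
  · have hc := Chain.chainA n hs (hn0 h0)
    rcases h8 with h | h | h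
    · exact Glue.cover (by omega) h2 hs (by omega) hc
    · exact Glue.cover (by omega) h11 hs (by omega) hc
    · exact Glue.cover (by omega) h14 hs (by omega) hc
  · have hc := Chain.chainC n hs (hn1 h1)
    rcases h8 with h | h | h
    · exact Glue.cover (by omega) h18 hs (by omega) hc
    · exact Glue.cover (by omega) h3 hs (by omega) hc
    · exact Glue.cover (by omega) h6 hs (by omega) hc

end Pool.Agent.Lib.MP_0e0027_nt.Ex
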