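import Pool.Agent.Lib.MP_0e0027_nt.Ex.V.K18_0
import Pool.Agent.Lib.MP_0e0027_nt.Ex.V.K18_1
import Pool.Agent.Lib.MP_0e0027_nt.Ex.V.K18_2
import Pool.Agent.Lib.MP_0e0027_nt.Ex.V.K18_3
import Pool.Agent.Lib.MP_0e0027_nt.Ex.V.K18_4
import Pool.Agent.Lib.MP_0e0027_nt.Ex.V.K18_5
import Pool.Agent.Lib.MP_0e0027_nt.Ex.V.Glue

/-!
Coverage of the class 18 modulo 24.
-/

set_option autoImplicit false

namespace Pool.Agent.Lib.MP_0e0027_nt.Ex

theorem cov18 : Cov 18 214500000000 := by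
  have h : ∀ j, 10542 ≤ j → j < 8938100277 → P3 (24 * j + 18) :=
    (Kc.join (Kc.join (Kc.join (Kc.join (Kc.join (Kc.join (Kc.join (Kc.join (Kc.join (Kc.join (Kc.join (Kc.join (Kc.join (Kc.join (Kc.join (Kc.join (Kc.join (Kc.join (Kc.join (Kc.join (Kc.join (Kc.join (Kc.join (Kc.join (Kc.join (Kc.join C18.m0 C18.m1) C18.m2) C18.m3) C18.m4) C18.m5) C18.m6) C18.m7) C18.m8) C18.m9) C18.m10) C18.m11) C18.m12) C18.m13) C18.m14) C18.m15) C18.m16) C18.m17) C18.m18) C18.m19) C18.m20) C18.m21) C18.m22) C18.m23) C18.m24) C18.m25) C18.m26)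
  intro r h1 h2 h3
  have e : r = 24 * (r / 24) + 18 := by omega
  rw [e]
  exact h _ (by omega) (by omega)

end Pool.Agent.Lib.MP_0e0027_nt.Ex
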