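import Pool.Agent.Lib.MP_0e0027_nt.Ex.V.K2_0
import Pool.Agent.Lib.MP_0e0027_nt.Ex.V.Glue

/-!
Coverage of the class 2 modulo 24.
-/

set_option autoImplicit false

namespace Pool.Agent.Lib.MP_0e0027_nt.Ex

theorem cov2 : Cov 2 38300000000 := by
  have h : ∀ j, 10542 ≤ j → j < 1595917195 → P3 (24 * j + 2) :=
    (Kc.join (Kc.join (Kc.join (Kc.join C2.m0 C2.m1) C2.m2) C2.m3) C2.m4)
  intro r h1 h2 h3
  have e : r = 24 * (r / 24) + 2 := by omega
  rw [e]
  exact h _ (by omega) (by omega)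

end Pool.Agent.Lib.MP_0e0027_nt.Ex
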