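import Pool.Agent.Lib.MP_0e0027_nt.Ex.V.K3_0
import Pool.Agent.Lib.MP_0e0027_nt.Ex.V.K3_1
import Pool.Agent.Lib.MP_0e0027_nt.Ex.V.K3_2
import Pool.Agent.Lib.MP_0e0027_nt.Ex.V.K3_3
import Pool.Agent.Lib.MP_0e0027_nt.Ex.V.K3_4
import Pool.Agent.Lib.MP_0e0027_nt.Ex.V.K3_5
import Pool.Agent.Lib.MP_0e0027_nt.Ex.V.Glue

/-!
Coverage of the class 3 modulo 24.
-/

set_option autoImplicit false

namespace Pool.Agent.Lib.MP_0e0027_nt.Ex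

theorem cov3 : Cov 3 214500000000 := by
  have h : ∀ j, 10542 ≤ j → j < 8938100277 → P3 (24 * j + 3) :=
    (Kc.join (Kc.join (Kc.join (Kc.join (Kc.join (Kc.join (Kc.join (Kc.join (Kc.join (Kc.join (Kc.join (Kc.join (Kc.join (Kc.join (Kc.join (Kc.join (Kc.join (Kc.join (Kc.join (Kc.join (Kc.join (Kc.join (Kc.join (Kc.join (Kc.join C3.m0 C3.m1) C3.m2) C3.m3) C3.m4) C3.m5) C3.m6) C3.m7) C3.m8) C3.m9) C3.m10) C3.m11) C3.m12) C3.m13) C3.m14) C3.m15) C3.m16) C3.m17) C3.m18) C3.m19) C3.m20) C3.m21) C3.m22) C3.m23) C3.m24) C3.m25)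
  intro r h1 h2 h3
  have e : r = 24 * (r / 24) + 3 := by omega
  rw [e]
  exact h _ (by omega) (by omega)

end Pool.Agent.Lib.MP_0e0027_nt.Ex
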