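import Pool.Agent.Lib.MP_0e0027_nt.Ex.V.K6_0
import Pool.Agent.Lib.MP_0e0027_nt.Ex.V.K6_1
import Pool.Agent.Lib.MP_0e0027_nt.Ex.V.K6_2
import Pool.Agent.Lib.MP_0e0027_nt.Ex.V.K6_3
import Pool.Agent.Lib.MP_0e0027_nt.Ex.V.K6_4
import Pool.Agent.Lib.MP_0e0027_nt.Ex.V.K6_5
import Pool.Agent.Lib.MP_0e0027_nt.Ex.V.Glue

/-!
Coverage of the class 6 modulo 24.
-/

set_option autoImplicit false

namespace Pool.Agent.Lib.MP_0e0027_nt.Ex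

theorem cov6 : Cov 6 214500000000 := by
  have h : ∀ j, 10542 ≤ j → j < 8938100277 → P3 (24 * j + 6) :=
    (Kc.join (Kc.join (Kc.join (Kc.join (Kc.join (Kc.join (Kc.join (Kc.join (Kc.join (Kc.join (Kc.join (Kc.join (Kc.join (Kc.join (Kc.join (Kc.join (Kc.join (Kc.join (Kc.join (Kc.join (Kc.join (Kc.join (Kc.join (Kc.join (Kc.join (Kc.join C6.m0 C6.m1) C6.m2) C6.m3) C6.m4) C6.m5) C6.m6) C6.m7) C6.m8) C6.m9) C6.m10) C6.m11) C6.m12) C6.m13) C6.m14) C6.m15) C6.m16) C6.m17) C6.m18) C6.m19) C6.m20) C6.m21) C6.m22) C6.m23) C6.m24) C6.m25) C6.m26)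
  intro r h1 h2 h3
  have e : r = 24 * (r / 24) + 6 := by omega
  rw [e]
  exact h _ (by omega) (by omega)

end Pool.Agent.Lib.MP_0e0027_nt.Ex
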