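import Pool.Agent.Lib.MP_0e0027_nt.Ex.V.TD10

/-!
Check of the bit table for the class 10 modulo 24.
-/

set_option autoImplicit false

namespace Pool.Agent.Lib.MP_0e0027_nt.Ex

namespace Tab

def T10_c0 : rng T10 4456448 10
    2007238469666518094547220599513022568322942623865
    1 126 = true := by
  decide +kernel

def T10_c1 : rng T10 4456448 10
    2007238469666518094547220599513022568322942623865
    127 148 = true := by
  decide +kernel

def T10_c2 : rng T10 4456448 10
    2007238469666518094547220599513022568322942623865
    275 167 = true := by
  decide +kernel

def T10_c3 : rng T10 4456448 10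
    2007238469666518094547220599513022568322942623865
    442 193 = true := by
  decide +kernel

def T10_c4 : rng T10 4456448 10
    2007238469666518094547220599513022568322942623865
    635 206 = true := by
  decide +kernel

def T10_c5 : rng T10 4456448 10
    2007238469666518094547220599513022568322942623865
    841 204 = true := by
  decide +kernel

def T10_c6 : rng T10 4456448 10
    2007238469666518094547220599513022568322942623865
    1045 214 = true := by
  decide +kernel

def T10_c7 : rng T10 4456448 10
    2007238469666518094547220599513022568322942623865
    1259 225 = true := by
  decide +kernel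

def T10_c8 : rng T10 4456448 10
    2007238469666518094547220599513022568322942623865
    1484 242 = true := by
  decide +kernel

def T10_c9 : rng T10 4456448 10
    2007238469666518094547220599513022568322942623865
    1726 253 = true := by
  decide +kernel

def T10_c10 : rng T10 4456448 10
    2007238469666518094547220599513022568322942623865
    1979 258 = true := by
  decide +kernel

def T10_c11 : rng T10 4456448 10
    2007238469666518094547220599513022568322942623865
    2237 242 = true := by
  decide +kernel

def T10_c12 : rng T10 4456448 10
    2007238469666518094547220599513022568322942623865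
    2479 107 = true := by
  decide +kernel

theorem T10_ok : Ok T10 4456448 10 7 10347 :=
  (((((((((((((rng_snd _ T10_c0).trans
    (rng_snd _ T10_c1)).trans
    (rng_snd _ T10_c2)).trans
    (rng_snd _ T10_c3)).trans
    (rng_snd _ T10_c4)).trans
    (rng_snd _ T10_c5)).trans
    (rng_snd _ T10_c6)).trans
    (rng_snd _ T10_c7)).trans
    (rng_snd _ T10_c8)).trans
    (rng_snd _ T10_c9)).trans
    (rng_snd _ T10_c10)).trans
    (rng_snd _ T10_c11)).trans
    (rng_snd _ T10_c12))

def T10_L : Nat.shiftRight T10 4456448 = 0 := by
  decide +kernel

/-- soundness of the table -/
theorem T10_snd : ∀ i, T10.testBit i = true → i < 4456448 ∧ P2 (24 * i + 10) :=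
  table_snd (B := 10347) (by norm_num) (by norm_num) (Or.inl (by norm_num)) T10_L (by norm_num) T10_ok

end Tab

end Pool.Agent.Lib.MP_0e0027_nt.Ex
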