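import Pool.Agent.Lib.MP_0e0027_nt.Ex.V.TD17

/-!
Check of the bit table for the class 17 modulo 24.
-/

set_option autoImplicit false

namespace Pool.Agent.Lib.MP_0e0027_nt.Ex

namespace Tab

def T17_c0 : rng T17 11010048 17
    2007238469666518094547220599513022568322942623865
    1 54 = true := by
  decide +kernel

def T17_c1 : rng T17 11010048 17
    2007238469666518094547220599513022568322942623865
    55 55 = true := by
  decide +kernel

def T17_c2 : rng T17 11010048 17
    2007238469666518094547220599513022568322942623865
    110 59 = true := by
  decide +kernel

def T17_c3 : rng T17 11010048 17
    2007238469666518094547220599513022568322942623865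
    169 66 = true := by
  decide +kernel

def T17_c4 : rng T17 11010048 17
    2007238469666518094547220599513022568322942623865
    235 73 = true := by
  decide +kernel

def T17_c5 : rng T17 11010048 17
    2007238469666518094547220599513022568322942623865
    308 69 = true := by
  decide +kernel

def T17_c6 : rng T17 11010048 17
    2007238469666518094547220599513022568322942623865
    377 78 = true := by
  decide +kernel

def T17_c7 : rng T17 11010048 17
    2007238469666518094547220599513022568322942623865
    455 80 = true := by
  decide +kernel

def T17_c8 : rng T17 11010048 17
    2007238469666518094547220599513022568322942623865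
    535 87 = true := by
  decide +kernel

def T17_c9 : rng T17 11010048 17
    2007238469666518094547220599513022568322942623865
    622 90 = true := by
  decide +kernel

def T17_c10 : rng T17 11010048 17
    2007238469666518094547220599513022568322942623865
    712 97 = true := by
  decide +kernel

def T17_c11 : rng T17 11010048 17
    2007238469666518094547220599513022568322942623865
    809 78 = true := by
  decide +kernel

def T17_c12 : rng T17 11010048 17
    2007238469666518094547220599513022568322942623865
    887 93 = true := by
  decide +kernel

def T17_c13 : rng T17 11010048 17
    2007238469666518094547220599513022568322942623865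
    980 87 = true := by
  decide +kernel

def T17_c14 : rng T17 11010048 17
    2007238469666518094547220599513022568322942623865
    1067 104 = true := by
  decide +kernel

def T17_c15 : rng T17 11010048 17
    2007238469666518094547220599513022568322942623865
    1171 88 = true := by
  decide +kernel

def T17_c16 : rng T17 11010048 17
    2007238469666518094547220599513022568322942623865
    1259 98 = true := by
  decide +kernel

def T17_c17 : rng T17 11010048 17
    2007238469666518094547220599513022568322942623865
    1357 99 = true := by
  decide +kernel

def T17_c18 : rng T17 11010048 17
    2007238469666518094547220599513022568322942623865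
    1456 105 = true := by
  decide +kernel

def T17_c19 : rng T17 11010048 17
    2007238469666518094547220599513022568322942623865
    1561 111 = true := by
  decide +kernel

def T17_c20 : rng T17 11010048 17
    2007238469666518094547220599513022568322942623865
    1672 85 = true := by
  decide +kernel

def T17_c21 : rng T17 11010048 17
    2007238469666518094547220599513022568322942623865
    1757 132 = true := by
  decide +kernel

def T17_c22 : rng T17 11010048 17
    2007238469666518094547220599513022568322942623865
    1889 101 = true := by
  decide +kernel

def T17_c23 : rng T17 11010048 17
    2007238469666518094547220599513022568322942623865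
    1990 121 = true := by
  decide +kernel

def T17_c24 : rng T17 11010048 17
    2007238469666518094547220599513022568322942623865
    2111 105 = true := by
  decide +kernel

def T17_c25 : rng T17 11010048 17
    2007238469666518094547220599513022568322942623865
    2216 116 = true := by
  decide +kernel

def T17_c26 : rng T17 11010048 17
    2007238469666518094547220599513022568322942623865
    2332 109 = true := by
  decide +kernel

def T17_c27 : rng T17 11010048 17
    2007238469666518094547220599513022568322942623865
    2441 114 = true := by
  decide +kernel

def T17_c28 : rng T17 11010048 17
    2007238469666518094547220599513022568322942623865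
    2555 110 = true := by
  decide +kernel

def T17_c29 : rng T17 11010048 17
    2007238469666518094547220599513022568322942623865
    2665 114 = true := by
  decide +kernel

def T17_c30 : rng T17 11010048 17
    2007238469666518094547220599513022568322942623865
    2779 108 = true := by
  decide +kernel

def T17_c31 : rng T17 11010048 17
    2007238469666518094547220599513022568322942623865
    2887 123 = true := by
  decide +kernel

def T17_c32 : rng T17 11010048 17
    2007238469666518094547220599513022568322942623865
    3010 126 = true := by
  decide +kernel

def T17_c33 : rng T17 11010048 17
    2007238469666518094547220599513022568322942623865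
    3136 136 = true := by
  decide +kernel

def T17_c34 : rng T17 11010048 17
    2007238469666518094547220599513022568322942623865
    3272 132 = true := by
  decide +kernel

def T17_c35 : rng T17 11010048 17
    2007238469666518094547220599513022568322942623865
    3404 122 = true := by
  decide +kernel

def T17_c36 : rng T17 11010048 17
    2007238469666518094547220599513022568322942623865
    3526 139 = true := by
  decide +kernel

def T17_c37 : rng T17 11010048 17
    2007238469666518094547220599513022568322942623865
    3665 111 = true := by
  decide +kernel

def T17_c38 : rng T17 11010048 17
    2007238469666518094547220599513022568322942623865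
    3776 128 = true := by
  decide +kernel

def T17_c39 : rng T17 11010048 17
    2007238469666518094547220599513022568322942623865
    3904 118 = true := by
  decide +kernel

def T17_c40 : rng T17 11010048 17
    2007238469666518094547220599513022568322942623865
    4022 43 = true := by
  decide +kernel

theorem T17_ok : Ok T17 11010048 17 7 16263 :=
  (((((((((((((((((((((((((((((((((((((((((rng_snd _ T17_c0).trans
    (rng_snd _ T17_c1)).trans
    (rng_snd _ T17_c2)).trans
    (rng_snd _ T17_c3)).trans
    (rng_snd _ T17_c4)).trans
    (rng_snd _ T17_c5)).trans
    (rng_snd _ T17_c6)).trans
    (rng_snd _ T17_c7)).trans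
    (rng_snd _ T17_c8)).trans
    (rng_snd _ T17_c9)).trans
    (rng_snd _ T17_c10)).trans
    (rng_snd _ T17_c11)).trans
    (rng_snd _ T17_c12)).trans
    (rng_snd _ T17_c13)).trans
    (rng_snd _ T17_c14)).trans
    (rng_snd _ T17_c15)).trans
    (rng_snd _ T17_c16)).trans
    (rng_snd _ T17_c17)).trans
    (rng_snd _ T17_c18)).trans
    (rng_snd _ T17_c19)).trans
    (rng_snd _ T17_c20)).trans
    (rng_snd _ T17_c21)).trans
    (rng_snd _ T17_c22)).trans
    (rng_snd _ T17_c23)).trans
    (rng_snd _ T17_c24)).trans
    (rng_snd _ T17_c25)).trans
    (rng_snd _ T17_c26)).trans
    (rng_snd _ T17_c27)).trans
    (rng_snd _ T17_c28)).trans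
    (rng_snd _ T17_c29)).trans
    (rng_snd _ T17_c30)).trans
    (rng_snd _ T17_c31)).trans
    (rng_snd _ T17_c32)).trans
    (rng_snd _ T17_c33)).trans
    (rng_snd _ T17_c34)).trans
    (rng_snd _ T17_c35)).trans
    (rng_snd _ T17_c36)).trans
    (rng_snd _ T17_c37)).trans
    (rng_snd _ T17_c38)).trans
    (rng_snd _ T17_c39)).trans
    (rng_snd _ T17_c40))

def T17_L : Nat.shiftRight T17 11010048 = 0 := by
  decide +kernel

/-- soundness of the table -/
theorem T17_snd : ∀ i, T17.testBit i = true → i < 11010048 ∧ P2 (24 * i + 17) :=
  table_snd (B := 16263) (by norm_num) (by norm_num) (Or.inl (by norm_num)) T17_L (by norm_num) T17_ok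

end Tab

end Pool.Agent.Lib.MP_0e0027_nt.Ex
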