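import Pool.Agent.Lib.MP_0e0027_nt.Ex.V.Bits

/-!
Kernel check of bit tables: bit `i` of `T` set implies that `24 i + c0` is a primitive sum of two
squares.
-/

set_option autoImplicit false

namespace Pool.Agent.Lib.MP_0e0027_nt.Ex

namespace Tab

/-- doubling, kernel friendly form of `Bits.rep` -/
def dbl (k : ℕ) : ℕ → ℕ → ℕ :=
  Nat.rec (fun _ m ↦ m) (fun _ ih s m ↦ ih (Nat.add s s) (Nat.lor m (Nat.shiftLeft m s))) k

theorem dbl_eq (k : ℕ) : ∀ s m, dbl k s m = Bits.rep k s m := by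
  induction k with
  | zero => intro s m; rfl
  | succ k ih => intro s m; exact ih _ _

/-- no set bit `i < L` of `T` has `q ∣ 24 i + c0` -/
def okq (T L c0 q : ℕ) : Bool :=
  (fun a : ℕ ↦ (fun m : ℕ ↦ (fun k : ℕ ↦ (fun R : ℕ ↦
    Bool.and (Nat.beq (Nat.mod (Nat.add (Nat.mul (nat_lit 24) a) c0) q) (nat_lit 0))
    (Bool.and (Nat.ble (Nat.succ a) q)
    (Bool.and (Nat.ble (Nat.shiftLeft (nat_lit 1) k) (Nat.succ m))
    (Bool.and (Nat.ble (Nat.succ m) (Nat.shiftLeft (nat_lit 2) k))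
    (Bool.and (Nat.beq (Nat.land T R) (nat_lit 0))
      (Nat.beq (Nat.land (Nat.shiftRight T
        (Nat.mul q (Nat.sub (Nat.succ m) (Nat.shiftLeft (nat_lit 1) k)))) R) (nat_lit 0)))))))
    (dbl k q (Nat.shiftLeft (nat_lit 1) a)))
    (Nat.log2 m)) (Nat.div L q))
    (Nat.div (Nat.sub (Nat.mul q (Nat.mod (Nat.mul c0 q) (nat_lit 24))) c0) (nat_lit 24))

/-- `okq` for all `q = 4 k + 3` with `k0 ≤ k < k0 + n` which are not recognised as composite
by `gcd (q, P)` -/
def rng (T L c0 P k0 n : ℕ) : Bool :=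
  Nat.rec true (fun j ih ↦
    (fun q : ℕ ↦ Bool.and (cond (Nat.beq (Nat.mod q (nat_lit 3)) (nat_lit 0)) true
        ((fun g : ℕ ↦ cond (Bool.and (Nat.ble (nat_lit 2) g) (Nat.ble (Nat.succ g) q)) true
          (okq T L c0 q)) (Nat.gcd q P)))
      ih) (Nat.add (Nat.mul (nat_lit 4) (Nat.add k0 j)) (nat_lit 3))) n

theorem and_true {a b : Bool} (h : Bool.and a b = true) : a = true ∧ b = true := by
  revert h; cases a <;> cases b <;> simp [Bool.and]

theorem okq_snd {T L c0 q : ℕ} (hq4 : q % 4 = 3) (hq3 : q % 3 ≠ 0) (h : okq T L c0 q = true) :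
    ∀ i, i < L → T.testBit i = true → ¬ q ∣ 24 * i + c0 := by
  unfold okq at h
  simp only at h
  set a : ℕ := Nat.div (Nat.sub (Nat.mul q (Nat.mod (Nat.mul c0 q) 24)) c0) 24 with ha
  set m : ℕ := Nat.div L q with hm
  set k : ℕ := Nat.log2 m with hk
  obtain ⟨h1, h⟩ := and_true h
  obtain ⟨h2, h⟩ := and_true h
  obtain ⟨h3, h⟩ := and_true h
  obtain ⟨h4, h⟩ := and_true h
  obtain ⟨h5, h6⟩ := and_true h
  replace h1 : (24 * a + c0) % q = 0 := Nat.eq_of_beq_eq_true h1
  replace h2 : a + 1 ≤ q := Nat.le_of_ble_eq_true h2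
  replace h3 : 1 <<< k ≤ m + 1 := Nat.le_of_ble_eq_true h3
  replace h4 : m + 1 ≤ 2 <<< k := Nat.le_of_ble_eq_true h4
  replace h5 : T &&& dbl k q (1 <<< a) = 0 := Nat.eq_of_beq_eq_true h5
  replace h6 : (T >>> (q * (m + 1 - 1 <<< k))) &&& dbl k q (1 <<< a) = 0 :=
    Nat.eq_of_beq_eq_true h6
  rw [Nat.one_shiftLeft] at h3
  rw [Nat.shiftLeft_eq] at h4
  rw [dbl_eq] at h5 h6
  rw [Nat.one_shiftLeft k] at h6
  have hq0 : 0 < q := by omega
  have hcop : Nat.gcd q 24 = 1 := by
    have h7 : q % 24 = 7 ∨ q % 24 = 11 ∨ q % 24 = 19 ∨ q % 24 = 23 := by omega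
    rw [Nat.gcd_comm, Nat.gcd_rec]
    rcases h7 with h7 | h7 | h7 | h7 <;> rw [h7] <;> rfl
  have huniq : ∀ i, i < q → q ∣ 24 * i + c0 → i = a := by
    intro i hi hd
    have e1 : 24 * i + c0 ≡ 24 * a + c0 [MOD q] := by
      have e2 : 24 * i + c0 ≡ 0 [MOD q] := (Nat.modEq_zero_iff_dvd).2 hd
      have e3 : 24 * a + c0 ≡ 0 [MOD q] := (Nat.modEq_zero_iff_dvd).2 (Nat.dvd_of_mod_eq_zero h1)
      exact e2.trans e3.symm
    have e4 : 24 * i ≡ 24 * a [MOD q] := Nat.ModEq.add_right_cancel' c0 e1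
    have e5 : i ≡ a [MOD q] := Nat.ModEq.cancel_left_of_coprime hcop e4
    exact Nat.ModEq.eq_of_lt_of_lt e5 hi (by omega)
  have hR : ∀ i, i < q * 2 ^ k → q ∣ 24 * i + c0 →
      (Bits.rep k q (1 <<< a)).testBit i = true := by
    intro i hi hd
    refine Bits.rep_cpl (Q := fun i ↦ q ∣ 24 * i + c0) k q _ ?_ ?_ i hi hd
    · intro i hi
      have e : 24 * (i + q) + c0 = 24 * i + c0 + q * 24 := by ring
      rw [e] at hi
      exact (Nat.dvd_add_left (Dvd.intro 24 rfl)).1 hi
    · intro i hi hd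
      rw [huniq i hi hd, Nat.one_shiftLeft, Nat.testBit_two_pow_self]
  have hLm : L < q * (m + 1) := by
    have : m = L / q := rfl
    rw [this]
    exact Nat.lt_mul_div_succ L hq0
  intro i hi hT hd
  rcases Nat.lt_or_ge i (q * 2 ^ k) with h7 | h7
  · have h8 := hR i h7 hd
    have h9 : (T &&& Bits.rep k q (1 <<< a)).testBit i = true := by
      rw [Nat.testBit_and, hT, h8]; rfl
    rw [h5, Nat.zero_testBit] at h9
    exact absurd h9 (by decide)
  · set s : ℕ := q * (m + 1 - 2 ^ k) with hs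
    have hsq : s + q * 2 ^ k = q * (m + 1) := by
      rw [hs, ← Nat.mul_add]
      congr 1
      omega
    have hs2 : s ≤ q * 2 ^ k := by
      rw [hs]
      exact Nat.mul_le_mul_left q (by omega)
    have hd' : q ∣ 24 * (i - s) + c0 := by
      have e : 24 * i + c0 = 24 * (i - s) + c0 + 24 * s := by omega
      rw [e] at hd
      exact (Nat.dvd_add_left (Dvd.dvd.mul_left (by rw [hs]; exact Dvd.intro _ rfl) 24)).1 hd
    have h8 := hR (i - s) (by omega) hd'
    have h9 : ((T >>> s) &&& Bits.rep k q (1 <<< a)).testBit (i - s) = true := by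
      rw [Nat.testBit_and, h8, Nat.testBit_shiftRight, Nat.add_sub_cancel' (by omega), hT]; rfl
    rw [h6, Nat.zero_testBit] at h9
    exact absurd h9 (by decide)

/-- `okq` holds for all primes `3 mod 4` in `[A, B)` other than `3` -/
def Ok (T L c0 A B : ℕ) : Prop :=
  ∀ q : ℕ, q.Prime → q % 4 = 3 → q ≠ 3 → A ≤ q → q < B → okq T L c0 q = true

theorem Ok.trans {T L c0 A B C : ℕ} (h1 : Ok T L c0 A B) (h2 : Ok T L c0 B C) :
    Ok T L c0 A C := by
  intro q h3 h4 h5 h6 h7
  rcases Nat.lt_or_ge q B with h | h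
  · exact h1 q h3 h4 h5 h6 h
  · exact h2 q h3 h4 h5 h h7

theorem rng_snd {T L c0 P k0 : ℕ} (n : ℕ) (h : rng T L c0 P k0 n = true) :
    Ok T L c0 (4 * k0 + 3) (4 * (k0 + n) + 3) := by
  induction n with
  | zero => intro q _ _ _ h4 h5; omega
  | succ n ih =>
    have h' : Bool.and (cond (Nat.beq (Nat.mod (4 * (k0 + n) + 3) 3) 0) true
        (cond (Bool.and (Nat.ble 2 (Nat.gcd (4 * (k0 + n) + 3) P))
          (Nat.ble (Nat.succ (Nat.gcd (4 * (k0 + n) + 3) P)) (4 * (k0 + n) + 3))) true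
          (okq T L c0 (4 * (k0 + n) + 3)))) (rng T L c0 P k0 n) = true := h
    obtain ⟨h1, h2⟩ := and_true h'
    intro q hq hq4 hq3 h3 h4
    rcases Nat.lt_or_ge q (4 * (k0 + n) + 3) with h5 | h5
    · exact ih h2 q hq hq4 hq3 h3 h5
    · have hqe : q = 4 * (k0 + n) + 3 := by omega
      rw [← hqe] at h1
      have hb3 : Nat.beq (Nat.mod q 3) 0 = false := by
        cases hb : Nat.beq (Nat.mod q 3) 0 with
        | false => rfl
        | true =>
          exfalso
          have h6 : q % 3 = 0 := Nat.eq_of_beq_eq_true hb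
          have h7 : 3 ∣ q := Nat.dvd_of_mod_eq_zero h6
          rcases (Nat.dvd_prime hq).1 h7 with h8 | h8
          · omega
          · exact hq3 h8.symm
      rw [hb3] at h1
      have hbg : Bool.and (Nat.ble 2 (Nat.gcd q P)) (Nat.ble (Nat.succ (Nat.gcd q P)) q) = false := by
        cases hb : Bool.and (Nat.ble 2 (Nat.gcd q P)) (Nat.ble (Nat.succ (Nat.gcd q P)) q) with
        | false => rfl
        | true =>
          exfalso
          obtain ⟨h6, h7⟩ := and_true hb
          replace h6 := Nat.le_of_ble_eq_true h6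
          replace h7 := Nat.le_of_ble_eq_true h7
          rcases (Nat.dvd_prime hq).1 (Nat.gcd_dvd_left q P) with h8 | h8
          · omega
          · omega
      rw [hbg] at h1
      exact h1

/-- no small prime factor `3 mod 4` suffices -/
theorem P2_of_small {B l : ℕ} (hl : 2 ≤ l) (h4 : l % 4 = 1 ∨ l % 8 = 2) (hlB : l < B * B)
    (hQ : ∀ q : ℕ, q.Prime → q % 4 = 3 → q < B → ¬ q ∣ l) : P2 l := by
  refine stVA l hl h4 ?_
  have hsmall : ∀ q : ℕ, q % 4 = 3 → q < B → q ∣ l → False := by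
    intro q hq hqB hd
    have h1 : ∃ p : ℕ, p.Prime ∧ p % 4 = 3 ∧ p ∣ q := by
      by_contra hno
      push Not at hno
      have h2 : ∀ m : ℕ, m ∣ q → m % 4 = 1 := by
        intro m
        induction m using Nat.recOnMul with
        | zero => intro h; have := Nat.eq_zero_of_zero_dvd h; omega
        | one => intro _; rfl
        | prime p hp =>
          intro h
          have h3 := hno p hp
          have h5 : p % 4 ≠ 0 := by
            intro h0
            have : 4 ∣ q := (Nat.dvd_of_mod_eq_zero h0).trans h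
            omega
          have h6 : p % 4 ≠ 2 := by
            intro h0
            have h7 : 2 ∣ p := by omega
            have : 2 ∣ q := h7.trans h
            omega
          have h7 : p % 4 ≠ 3 := fun h0 ↦ h3 h0 h
          omega
        | mul a b iha ihb =>
          intro h
          have ha := iha ((Dvd.intro _ rfl).trans h)
          have hb := ihb ((Dvd.intro_left _ rfl).trans h)
          rw [Nat.mul_mod, ha, hb]
      have := h2 q (dvd_refl q)
      omega
    obtain ⟨p, hp, hp4, hpq⟩ := h1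
    have hq0 : 0 < q := by omega
    exact hQ p hp hp4 (lt_of_le_of_lt (Nat.le_of_dvd hq0 hpq) hqB) (hpq.trans hd)
  intro q _ hq hd
  rcases Nat.lt_or_ge q B with h | h
  · exact hsmall q hq h hd
  · obtain ⟨c, hc⟩ := hd
    have hc1 : c < B := by
      by_contra hcon
      push Not at hcon
      nlinarith [Nat.mul_le_mul h hcon]
    have hqc : l % 8 = ((q % 8) * (c % 8)) % 8 := by rw [hc, Nat.mul_mod]
    have hq8 : q % 8 = 3 ∨ q % 8 = 7 := by omega
    have hc8 : c % 8 = 0 ∨ c % 8 = 1 ∨ c % 8 = 2 ∨ c % 8 = 3 ∨ c % 8 = 4 ∨ c % 8 = 5 ∨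
      c % 8 = 6 ∨ c % 8 = 7 := by omega
    have hcc : c % 4 = 3 ∨ c % 8 = 6 := by
      rcases hq8 with e | e <;> rcases hc8 with f | f | f | f | f | f | f | f <;>
        rw [e, f] at hqc <;> omega
    rcases hcc with e | e
    · exact hsmall c e hc1 ⟨q, by rw [hc]; ring⟩
    · obtain ⟨c', hc'⟩ : ∃ c', c = 2 * c' := ⟨c / 2, by omega⟩
      exact hsmall c' (by omega) (by omega) ⟨2 * q, by rw [hc, hc']; ring⟩

/-- the table is sound -/
theorem table_snd {T L c0 B : ℕ} (hc3 : c0 % 3 ≠ 0) (hc : c0 % 24 % 4 = 1 ∨ c0 % 24 % 8 = 2)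
    (h1 : 2 ≤ c0 ∨ Nat.mod T 2 = 0) (hL : Nat.shiftRight T L = 0) (hB : 24 * L + c0 ≤ B * B)
    (h : Ok T L c0 7 B) : ∀ i, T.testBit i = true → i < L ∧ P2 (24 * i + c0) := by
  intro i hi
  have hiL : i < L := by
    by_contra hcon
    push Not at hcon
    have h2 : (T >>> L).testBit (i - L) = true := by
      rw [Nat.testBit_shiftRight, Nat.add_sub_cancel' hcon]; exact hi
    have h3 : T >>> L = 0 := hL
    rw [h3, Nat.zero_testBit] at h2
    exact absurd h2 (by decide)
  refine ⟨hiL, ?_⟩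
  have hl : 2 ≤ 24 * i + c0 := by
    rcases h1 with h1 | h1
    · omega
    · have : i ≠ 0 := by
        rintro rfl
        rw [Nat.testBit_zero] at hi
        have h2 : T % 2 = 0 := h1
        rw [h2] at hi
        exact absurd hi (by decide)
      omega
  refine P2_of_small (B := B) hl (by omega) (by omega) ?_
  intro q hq hq4 hqB hd
  have hq3 : q ≠ 3 := by
    rintro rfl
    omega
  have hq7 : 7 ≤ q := by
    have := hq.two_le
    omega
  refine okq_snd hq4 ?_ (h q hq hq4 hq3 hq7 hqB) i hiL hi hd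
  intro h0
  rcases (Nat.dvd_prime hq).1 (Nat.dvd_of_mod_eq_zero h0) with h8 | h8
  · omega
  · exact hq3 h8.symm

end Tab

end Pool.Agent.Lib.MP_0e0027_nt.Ex
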