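import Pool.Agent.Lib.MP_0e0027_nt.Ex.V.Glue
import Pool.Agent.Lib.MP_0e0027_nt.Ex.V.Cov18
import Pool.Agent.Lib.MP_0e0027_nt.Ex.V.Cov6
import Pool.Agent.Lib.MP_0e0027_nt.Ex.V.Cov3
import Pool.Agent.Lib.MP_0e0027_nt.Ex.V.Cov2
import Pool.Agent.Lib.MP_0e0027_nt.Ex.V.Cov14
import Pool.Agent.Lib.MP_0e0027_nt.Ex.V.Cov11

/-!
The verification below the analytic thresholds, without hypotheses.
-/

set_option autoImplicit false

namespace Pool.Agent.Lib.MP_0e0027_nt.Ex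

theorem verAll : StVer' := glue cov18 cov6 cov3 cov2 cov14 cov11

end Pool.Agent.Lib.MP_0e0027_nt.Ex
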