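import Pool.Agent.Lib.MP_0e0027_nt.Ex.V.Bits

/-!
Sliding window over the primes `z`: every `r = 24 j + c` with `j` in an interval is
`z ^ 2 + l` with `l` in the bit set `T`, up to leftovers which are certified individually.
Kernel friendly functions and their soundness.
-/

set_option autoImplicit false

namespace Pool.Agent.Lib.MP_0e0027_nt.Ex

namespace Win

/-- bit `i` of `acc` stands for `24 (s + i) + c` -/
def Inv (c s acc : ℕ) : Prop := ∀ i, acc.testBit i = true → P3 (24 * (s + i) + c)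

/-- `P` is divisible by all primes below `B` -/
def PrimeTo (B P : ℕ) : Prop := ∀ q : ℕ, q.Prime → q < B → q ∣ P

/-- `Q` is divisible by all primes `3 mod 4` below `B` -/
def PrimeTo3 (B Q : ℕ) : Prop := ∀ q : ℕ, q.Prime → q % 4 = 3 → q < B → q ∣ Q

theorem prime_of_gcd {B P z : ℕ} (hP : PrimeTo B P) (hz : 2 ≤ z) (hzB : z < B * B)
    (hg : Nat.gcd z P = 1) : z.Prime := by
  by_contra hcon
  have h1 := Nat.minFac_prime (n := z) (by omega)
  have h2 := Nat.minFac_sq_le_self (n := z) (by omega) hcon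
  have h3 : z.minFac < B := by
    by_contra hc
    push Not at hc
    nlinarith [Nat.mul_le_mul hc hc]
  have h4 := hP _ h1 h3
  have h5 : z.minFac ∣ Nat.gcd z P := Nat.dvd_gcd (Nat.minFac_dvd z) h4
  rw [hg] at h5
  exact h1.one_lt.ne' (Nat.dvd_one.1 h5)

theorem P2_of_gcd {B Q l : ℕ} (hQ : PrimeTo3 B Q) (hl : 2 ≤ l) (h4 : l % 4 = 1 ∨ l % 8 = 2)
    (hlB : l < B * B) (hg : Nat.gcd l Q = 1) : P2 l := by
  refine stVA l hl h4 ?_
  have hsmall : ∀ q : ℕ, q % 4 = 3 → q < B → q ∣ l → False := by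
    intro q hq hqB hd
    -- `q` has a prime factor `3 mod 4`
    have h1 : ∃ p : ℕ, p.Prime ∧ p % 4 = 3 ∧ p ∣ q := by
      by_contra hno
      push Not at hno
      have h2 : ∀ m : ℕ, m ∣ q → m % 4 = 1 := by
        intro m
        induction m using Nat.recOnMul with
        | zero => intro h; have := Nat.eq_zero_of_zero_dvd h; omega
        | one => intro _; rfl
        | prime p hp =>
          intro h
          have h3 := hno p hp
          have h5 : p % 4 ≠ 0 := by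
            intro h0
            have : 4 ∣ q := (Nat.dvd_of_mod_eq_zero h0).trans h
            omega
          have h6 : p % 4 ≠ 2 := by
            intro h0
            have h7 : 2 ∣ p := by omega
            have : 2 ∣ q := h7.trans h
            omega
          have h7 : p % 4 ≠ 3 := fun h0 ↦ h3 h0 h
          omega
        | mul a b iha ihb =>
          intro h
          have ha := iha ((Dvd.intro _ rfl).trans h)
          have hb := ihb ((Dvd.intro_left _ rfl).trans h)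
          rw [Nat.mul_mod, ha, hb]
      have := h2 q (dvd_refl q)
      omega
    obtain ⟨p, hp, hp4, hpq⟩ := h1
    have hq0 : 0 < q := by omega
    have h3 := hQ p hp hp4 (lt_of_le_of_lt (Nat.le_of_dvd hq0 hpq) hqB)
    have h5 : p ∣ Nat.gcd l Q := Nat.dvd_gcd (hpq.trans hd) h3
    rw [hg] at h5
    exact hp.one_lt.ne' (Nat.dvd_one.1 h5)
  intro q _ hq hd
  rcases Nat.lt_or_ge q B with h | h
  · exact hsmall q hq h hd
  · obtain ⟨c, hc⟩ := hd
    have hc1 : c < B := by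
      by_contra hcon
      push Not at hcon
      nlinarith [Nat.mul_le_mul h hcon]
    have hqc : l % 8 = ((q % 8) * (c % 8)) % 8 := by rw [hc, Nat.mul_mod]
    have hq8 : q % 8 = 3 ∨ q % 8 = 7 := by omega
    have hc8 : c % 8 = 0 ∨ c % 8 = 1 ∨ c % 8 = 2 ∨ c % 8 = 3 ∨ c % 8 = 4 ∨ c % 8 = 5 ∨
      c % 8 = 6 ∨ c % 8 = 7 := by omega
    have hcc : c % 4 = 3 ∨ c % 8 = 6 := by
      rcases hq8 with e | e <;> rcases hc8 with f | f | f | f | f | f | f | f <;>
        rw [e, f] at hqc <;> omega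
    rcases hcc with e | e
    · exact hsmall c e hc1 ⟨q, by rw [hc]; ring⟩
    · obtain ⟨c', hc'⟩ : ∃ c', c = 2 * c' := ⟨c / 2, by omega⟩
      exact hsmall c' (by omega) (by omega) ⟨2 * q, by rw [hc, hc']; ring⟩

/-! ### the functions -/

/-- all odd or even `k < n` with `gcd (k + 2) P ≠ 1` -/
def allP (P : ℕ) (n : ℕ) : Bool :=
  Nat.rec true (fun k ih ↦ Bool.and (Nat.ble (nat_lit 2) (Nat.gcd (Nat.add k (nat_lit 2)) P)) ih) n

/-- all `4 k + 3`, `k < n`, are not coprime to `Q` -/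
def allQ (Q : ℕ) (n : ℕ) : Bool :=
  Nat.rec true (fun k ih ↦ Bool.and (Nat.ble (nat_lit 2)
    (Nat.gcd (Nat.add (Nat.mul k (nat_lit 4)) (nat_lit 3)) Q)) ih) n

/-- the certificate of one leftover `p`: `24 (s + p) + c = y ^ 2 + l` with the prime `y = z - 2 o`,
`l` without prime factor `3 mod 4` -/
def one (P Q BP BQ c c0 : ℕ) (z s p o : ℕ) : Bool :=
  (fun y : ℕ ↦ (fun yy : ℕ ↦ (fun l : ℕ ↦
    Bool.and (Nat.beq (Nat.gcd y P) (nat_lit 1))
    (Bool.and (Nat.beq (Nat.gcd l Q) (nat_lit 1))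
    (Bool.and (Nat.beq (Nat.mod l (nat_lit 24)) c0)
    (Bool.and (Nat.ble (Nat.succ l) yy)
    (Bool.and (Nat.ble (nat_lit 2) l)
    (Bool.and (Nat.ble (Nat.succ l) BQ)
    (Bool.and (Nat.ble (Nat.succ y) BP) (Nat.ble (nat_lit 2) y))))))))
    (Nat.sub (Nat.add (Nat.mul (nat_lit 24) (Nat.add s p)) c) yy))
    (Nat.mul y y)) (Nat.sub z (Nat.mul (nat_lit 2) o))

/-- leftovers: `n` entries `E mod 2^32 = p + 2^22 o`; passes the mask of their positions -/
def los (P Q BP BQ c c0 : ℕ) (z s : ℕ) (n : ℕ) : ℕ → ℕ → (ℕ → Bool) → Bool :=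
  Nat.rec (fun _ m k ↦ k m) (fun _ ih E m k ↦
    (fun p : ℕ ↦ Bool.and (one P Q BP BQ c c0 z s p
        (Nat.mod (Nat.shiftRight E (nat_lit 22)) (nat_lit 1024)))
      (ih (Nat.shiftRight E (nat_lit 32)) (Nat.lor m (Nat.shiftLeft (nat_lit 1) p)) k))
      (Nat.mod E (nat_lit 4194304))) n

/-- the main loop: `G mod 2^16 = (z' - z) / 2 + 2^8 (number of leftovers)` -/
def run (T P Q BP BQ c c0 e : ℕ) (n : ℕ) : ℕ → ℕ → ℕ → ℕ → ℕ → Bool :=
  Nat.rec (fun _ _ _ s _ ↦ Nat.ble e s) (fun _ ih G E z s acc ↦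
    (fun z' : ℕ ↦ (fun zz : ℕ ↦ (fun s' : ℕ ↦ (fun d : ℕ ↦ (fun m : ℕ ↦
      Bool.and (Nat.beq (Nat.gcd z' P) (nat_lit 1))
      (Bool.and (Nat.beq (Nat.mod zz (nat_lit 24)) (nat_lit 1))
      (Bool.and (Nat.ble (Nat.succ z') BP)
      (Bool.and (Nat.ble s s')
      (los P Q BP BQ c c0 z s m E (Nat.mod acc (Nat.shiftLeft (nat_lit 1) d)) (fun M ↦
        Bool.and (Nat.beq (Nat.succ M) (Nat.shiftLeft (nat_lit 1) d))
          (ih (Nat.shiftRight G (nat_lit 16)) (Nat.shiftRight E (Nat.mul (nat_lit 32) m)) z' s'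
            (Nat.lor (Nat.shiftRight acc d) T))))))))
      (Nat.mod (Nat.shiftRight G (nat_lit 8)) (nat_lit 256)))
      (Nat.sub s' s)) (Nat.div zz (nat_lit 24))) (Nat.mul z' z'))
      (Nat.add z (Nat.mul (nat_lit 2) (Nat.mod G (nat_lit 256))))) n

/-- warming up: no positions are checked -/
def warm (T P BP : ℕ) (n : ℕ) : ℕ → ℕ → ℕ → ℕ → (ℕ → ℕ → ℕ → Bool) → Bool :=
  Nat.rec (fun _ z s acc k ↦ k z s acc) (fun _ ih G z s acc k ↦
    (fun z' : ℕ ↦ (fun zz : ℕ ↦ (fun s' : ℕ ↦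
      Bool.and (Nat.beq (Nat.gcd z' P) (nat_lit 1))
      (Bool.and (Nat.beq (Nat.mod zz (nat_lit 24)) (nat_lit 1))
      (Bool.and (Nat.ble (Nat.succ z') BP)
      (Bool.and (Nat.ble s s')
        (ih (Nat.shiftRight G (nat_lit 8)) z' s'
            (Nat.lor (Nat.shiftRight acc (Nat.sub s' s)) T) k)))))
      (Nat.div zz (nat_lit 24))) (Nat.mul z' z'))
      (Nat.add z (Nat.mul (nat_lit 2) (Nat.mod G (nat_lit 256))))) n

/-- a block: start at `z0` (any number), `nw` steps of warming up, `n` steps of the main loop;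
shows that all `24 j + c`, `a ≤ j < e`, are fine -/
def block (T0 L P Q BP BQ c c0 a e z0 nw GW n G E : ℕ) : Bool :=
  (fun T : ℕ ↦
    Bool.and (Nat.ble (Nat.add (Nat.mul (nat_lit 24) L) c) (Nat.mul z0 z0))
    (warm T P BP nw GW z0 (Nat.div (Nat.mul z0 z0) (nat_lit 24)) (nat_lit 0) (fun z s acc ↦
      Bool.and (Nat.ble s a) (run T P Q BP BQ c c0 e n G E z s acc))))
    (Nat.mod T0 (Nat.shiftLeft (nat_lit 1) L))

/-! ### soundness -/

theorem and_true {a b : Bool} (h : Bool.and a b = true) : a = true ∧ b = true := by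
  revert h; cases a <;> cases b <;> simp [Bool.and]

theorem one_snd {P Q BP BQ B B' c c0 z s p o : ℕ} (hP : PrimeTo B P) (hQ : PrimeTo3 B' Q)
    (hBP : BP ≤ B * B) (hBQ : BQ ≤ B' * B') (hc0 : c0 % 4 = 1 ∨ c0 % 8 = 2) (hc : c = c0 + 1)
    (h : one P Q BP BQ c c0 z s p o = true) : P3 (24 * (s + p) + c) := by
  unfold one at h
  simp only at h
  obtain ⟨h1, h⟩ := and_true h
  obtain ⟨h2, h⟩ := and_true h
  obtain ⟨h3, h⟩ := and_true h
  obtain ⟨h4, h⟩ := and_true h
  obtain ⟨h5, h⟩ := and_true h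
  obtain ⟨h6, h⟩ := and_true h
  obtain ⟨h7, h8⟩ := and_true h
  replace h1 := Nat.eq_of_beq_eq_true h1
  replace h2 := Nat.eq_of_beq_eq_true h2
  replace h3 := Nat.eq_of_beq_eq_true h3
  replace h4 := Nat.le_of_ble_eq_true h4
  replace h5 := Nat.le_of_ble_eq_true h5
  replace h6 := Nat.le_of_ble_eq_true h6
  replace h7 := Nat.le_of_ble_eq_true h7
  replace h8 := Nat.le_of_ble_eq_true h8
  set y : ℕ := Nat.sub z (Nat.mul 2 o) with hy
  set l : ℕ := Nat.sub (Nat.add (Nat.mul 24 (Nat.add s p)) c) (Nat.mul y y) with hl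
  have hl' : l = 24 * (s + p) + c - y * y := rfl
  have hyp : y.Prime := prime_of_gcd hP h8 (by omega) h1
  have h3' : l % 24 = c0 := h3
  have h4' : l + 1 ≤ y * y := h4
  have hP2 : P2 l := P2_of_gcd hQ h5 (by omega) (by omega) h2
  have := P3_of_prime hyp hP2 (by rw [pow_two]; omega)
  have e : 24 * (s + p) + c = y ^ 2 + l := by rw [pow_two]; omega
  rw [e]; exact this

theorem los_snd {P Q BP BQ B B' c c0 z s : ℕ} (hP : PrimeTo B P) (hQ : PrimeTo3 B' Q)
    (hBP : BP ≤ B * B) (hBQ : BQ ≤ B' * B') (hc0 : c0 % 4 = 1 ∨ c0 % 8 = 2) (hc : c = c0 + 1)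
    (n : ℕ) : ∀ (E m : ℕ) (k : ℕ → Bool), Inv c s m → los P Q BP BQ c c0 z s n E m k = true →
    ∃ M, Inv c s M ∧ k M = true := by
  induction n with
  | zero => exact fun E m k hm h ↦ ⟨m, hm, h⟩
  | succ n ih =>
    intro E m k hm h
    have h' : Bool.and (one P Q BP BQ c c0 z s (Nat.mod E 4194304)
        (Nat.mod (Nat.shiftRight E 22) 1024))
      (los P Q BP BQ c c0 z s n (Nat.shiftRight E 32)
        (Nat.lor m (Nat.shiftLeft 1 (Nat.mod E 4194304))) k) = true := h
    obtain ⟨h1, h2⟩ := and_true h'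
    refine ih _ _ k ?_ h2
    intro i hi
    have h3 : (m ||| (1 <<< (Nat.mod E 4194304))).testBit i = true := hi
    rw [Nat.testBit_or, Bool.or_eq_true, Nat.one_shiftLeft, Nat.testBit_two_pow] at h3
    rcases h3 with h3 | h3
    · exact hm i h3
    · have e : Nat.mod E 4194304 = i := by simpa using h3
      rw [← e]
      exact one_snd hP hQ hBP hBQ hc0 hc h1

theorem inv_step {T L P BP B c c0 z' s s' acc : ℕ} (hP : PrimeTo B P) (hBP : BP ≤ B * B)
    (hc : c = c0 + 1) (hT : ∀ i, T.testBit i = true → i < L ∧ P2 (24 * i + c0))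
    (hL : 24 * L + c ≤ z' * z') (hz : 2 ≤ z') (hs' : s' = z' * z' / 24)
    (h1 : Nat.gcd z' P = 1) (h2 : z' * z' % 24 = 1) (h3 : z' + 1 ≤ BP) (h4 : s ≤ s')
    (hinv : Inv c s acc) : Inv c s' (Nat.lor (Nat.shiftRight acc (Nat.sub s' s)) T) := by
  intro i hi
  have hi' : ((acc >>> (s' - s)) ||| T).testBit i = true := hi
  rw [Nat.testBit_or, Bool.or_eq_true, Nat.testBit_shiftRight] at hi'
  rcases hi' with h | h
  · have := hinv _ h
    have e : s + (s' - s + i) = s' + i := by omega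
    rwa [e] at this
  · obtain ⟨hiL, hp⟩ := hT i h
    have hprime : z'.Prime := prime_of_gcd hP hz (by omega) h1
    have := P3_of_prime hprime hp (by rw [pow_two]; omega)
    have e : 24 * (s' + i) + c = z' ^ 2 + (24 * i + c0) := by rw [pow_two]; omega
    rw [e]; exact this

theorem run_snd {T L P Q BP BQ B B' c c0 e : ℕ} (hP : PrimeTo B P) (hQ : PrimeTo3 B' Q)
    (hBP : BP ≤ B * B) (hBQ : BQ ≤ B' * B') (hc0 : c0 % 4 = 1 ∨ c0 % 8 = 2) (hc : c = c0 + 1)
    (hT : ∀ i, T.testBit i = true → i < L ∧ P2 (24 * i + c0)) (n : ℕ) :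
    ∀ (G E z s acc : ℕ), 2 ≤ z → 24 * L + c ≤ z * z → Inv c s acc →
      run T P Q BP BQ c c0 e n G E z s acc = true →
      ∀ j, s ≤ j → j < e → P3 (24 * j + c) := by
  induction n with
  | zero =>
    intro G E z s acc _ _ _ h j h1 h2
    have h' : Nat.ble e s = true := h
    have := Nat.le_of_ble_eq_true h'
    omega
  | succ n ih =>
    intro G E z s acc hz2 hzL hinv h j hj1 hj2
    set z' : ℕ := Nat.add z (Nat.mul 2 (Nat.mod G 256)) with hz'
    set zz : ℕ := Nat.mul z' z' with hzz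
    set s' : ℕ := Nat.div zz 24 with hs'
    set d : ℕ := Nat.sub s' s with hd
    set m : ℕ := Nat.mod (Nat.shiftRight G 8) 256 with hm
    have h' : Bool.and (Nat.beq (Nat.gcd z' P) 1)
      (Bool.and (Nat.beq (Nat.mod zz 24) 1)
      (Bool.and (Nat.ble (Nat.succ z') BP)
      (Bool.and (Nat.ble s s')
      (los P Q BP BQ c c0 z s m E (Nat.mod acc (Nat.shiftLeft 1 d)) (fun M ↦
        Bool.and (Nat.beq (Nat.succ M) (Nat.shiftLeft 1 d))
          (run T P Q BP BQ c c0 e n (Nat.shiftRight G 16) (Nat.shiftRight E (Nat.mul 32 m)) z' s'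
            (Nat.lor (Nat.shiftRight acc d) T))))))) = true := h
    obtain ⟨h1, h'⟩ := and_true h'
    obtain ⟨h2, h'⟩ := and_true h'
    obtain ⟨h3, h'⟩ := and_true h'
    obtain ⟨h4, h'⟩ := and_true h'
    replace h1 := Nat.eq_of_beq_eq_true h1
    replace h2 := Nat.eq_of_beq_eq_true h2
    replace h3 := Nat.le_of_ble_eq_true h3
    replace h4 := Nat.le_of_ble_eq_true h4
    have hzle : z ≤ z' := Nat.le_add_right _ _
    have hzzle : z * z ≤ z' * z' := Nat.mul_le_mul hzle hzle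
    have hinv' : Inv c s (Nat.mod acc (Nat.shiftLeft 1 d)) := by
      intro i hi
      have hi' : (acc % (1 <<< d)).testBit i = true := hi
      rw [Nat.one_shiftLeft, Nat.testBit_mod_two_pow, Bool.and_eq_true] at hi'
      exact hinv i hi'.2
    obtain ⟨M, hM, hk⟩ := los_snd hP hQ hBP hBQ hc0 hc m E _ _ hinv' h'
    obtain ⟨hk1, hk2⟩ := and_true hk
    replace hk1 : M + 1 = 1 <<< d := Nat.eq_of_beq_eq_true hk1
    have hnew : Inv c s' (Nat.lor (Nat.shiftRight acc d) T) :=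
      inv_step hP hBP hc hT (hzL.trans hzzle) (by omega) hs' h1 h2 h3 h4 hinv
    rcases Nat.lt_or_ge j s' with hjs | hjs
    · have h5 : M.testBit (j - s) = true := by
        rw [Nat.one_shiftLeft] at hk1
        have h6 : M = 2 ^ d - 1 := by omega
        rw [h6, Nat.testBit_two_pow_sub_one]
        have : j - s < d := by
          have : d = s' - s := rfl
          omega
        simpa using this
      have h7 := hM _ h5
      have e2 : s + (j - s) = j := by omega
      rwa [e2] at h7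
    · exact ih _ _ z' s' _ (by omega) (hzL.trans hzzle) hnew hk2 j hjs hj2

theorem warm_snd {T L P BP B c c0 : ℕ} (hP : PrimeTo B P)
    (hBP : BP ≤ B * B) (hc : c = c0 + 1)
    (hT : ∀ i, T.testBit i = true → i < L ∧ P2 (24 * i + c0)) (n : ℕ) :
    ∀ (G z s acc : ℕ) (k : ℕ → ℕ → ℕ → Bool), 2 ≤ z → 24 * L + c ≤ z * z → Inv c s acc →
      warm T P BP n G z s acc k = true →
      ∃ z1 s1 acc1, 2 ≤ z1 ∧ 24 * L + c ≤ z1 * z1 ∧ Inv c s1 acc1 ∧ k z1 s1 acc1 = true := by
  induction n with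
  | zero => exact fun G z s acc k h1 h2 h3 h ↦ ⟨z, s, acc, h1, h2, h3, h⟩
  | succ n ih =>
    intro G z s acc k hz2 hzL hinv h
    set z' : ℕ := Nat.add z (Nat.mul 2 (Nat.mod G 256)) with hz'
    set zz : ℕ := Nat.mul z' z' with hzz
    set s' : ℕ := Nat.div zz 24 with hs'
    have h' : Bool.and (Nat.beq (Nat.gcd z' P) 1)
      (Bool.and (Nat.beq (Nat.mod zz 24) 1)
      (Bool.and (Nat.ble (Nat.succ z') BP)
      (Bool.and (Nat.ble s s')
        (warm T P BP n (Nat.shiftRight G 8) z' s'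
            (Nat.lor (Nat.shiftRight acc (Nat.sub s' s)) T) k)))) = true := h
    obtain ⟨h1, h'⟩ := and_true h'
    obtain ⟨h2, h'⟩ := and_true h'
    obtain ⟨h3, h'⟩ := and_true h'
    obtain ⟨h4, h'⟩ := and_true h'
    replace h1 := Nat.eq_of_beq_eq_true h1
    replace h2 := Nat.eq_of_beq_eq_true h2
    replace h3 := Nat.le_of_ble_eq_true h3
    replace h4 := Nat.le_of_ble_eq_true h4
    have hzle : z ≤ z' := Nat.le_add_right _ _
    have hzzle : z * z ≤ z' * z' := Nat.mul_le_mul hzle hzle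
    exact ih _ z' s' _ k (by omega) (hzL.trans hzzle)
      (inv_step hP hBP hc hT (hzL.trans hzzle) (by omega) hs' h1 h2 h3 h4 hinv) h'

/-- soundness of a block -/
theorem block_snd {T0 L P Q BP BQ B B' c c0 a e z0 nw GW n G E : ℕ} (hP : PrimeTo B P)
    (hQ : PrimeTo3 B' Q) (hBP : BP ≤ B * B) (hBQ : BQ ≤ B' * B')
    (hc0 : c0 % 4 = 1 ∨ c0 % 8 = 2) (hc : c = c0 + 1)
    (hT : ∀ i, T0.testBit i = true → P2 (24 * i + c0))
    (h : block T0 L P Q BP BQ c c0 a e z0 nw GW n G E = true) :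
    ∀ j, a ≤ j → j < e → P3 (24 * j + c) := by
  intro j hj1 hj2
  set T : ℕ := Nat.mod T0 (Nat.shiftLeft 1 L) with hTdef
  have h' : Bool.and (Nat.ble (Nat.add (Nat.mul 24 L) c) (Nat.mul z0 z0))
    (warm T P BP nw GW z0 (Nat.div (Nat.mul z0 z0) 24) 0 (fun z s acc ↦
      Bool.and (Nat.ble s a) (run T P Q BP BQ c c0 e n G E z s acc))) = true := h
  obtain ⟨h1, h2⟩ := and_true h'
  have h1' : 24 * L + c ≤ z0 * z0 := Nat.le_of_ble_eq_true h1
  have hT' : ∀ i, T.testBit i = true → i < L ∧ P2 (24 * i + c0) := by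
    intro i hi
    have hi' : (T0 % (1 <<< L)).testBit i = true := hi
    rw [Nat.one_shiftLeft, Nat.testBit_mod_two_pow, Bool.and_eq_true] at hi'
    exact ⟨by simpa using hi'.1, hT i hi'.2⟩
  have hz0 : 2 ≤ z0 := by
    by_contra hcon
    push Not at hcon
    have hcc : 2 ≤ c := by omega
    interval_cases z0 <;> omega
  obtain ⟨z1, s1, acc1, hz1, hL1, hinv1, hk⟩ := warm_snd hP hBP hc hT' nw GW z0 _ 0 _ hz0 h1'
    (by intro i hi; rw [Nat.zero_testBit] at hi; exact absurd hi (by decide)) h2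
  obtain ⟨hk1, hk2⟩ := and_true hk
  replace hk1 := Nat.le_of_ble_eq_true hk1
  exact run_snd hP hQ hBP hBQ hc0 hc hT' n G E z1 s1 acc1 hz1 hL1 hinv1 hk2 j (by omega) hj2

theorem allP_snd {P n : ℕ} (h : allP P n = true) : PrimeTo (n + 2) P := by
  induction n with
  | zero => intro q hq hq2; have := hq.two_le; omega
  | succ n ih =>
    have h' : Bool.and (Nat.ble 2 (Nat.gcd (Nat.add n 2) P)) (allP P n) = true := h
    obtain ⟨h1, h2⟩ := and_true h'
    intro q hq hqn
    rcases Nat.lt_or_ge q (n + 2) with h3 | h3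
    · exact ih h2 q hq h3
    · have e : q = n + 2 := by omega
      replace h1 : 2 ≤ Nat.gcd (n + 2) P := Nat.le_of_ble_eq_true h1
      rw [← e] at h1
      by_contra hnd
      have := (Nat.Prime.coprime_iff_not_dvd hq).2 hnd
      rw [Nat.coprime_iff_gcd_eq_one] at this
      omega

theorem allQ_snd {Q n : ℕ} (h : allQ Q n = true) : PrimeTo3 (4 * n + 3) Q := by
  induction n with
  | zero => intro q hq hq4 hq2; omega
  | succ n ih =>
    have h' : Bool.and (Nat.ble 2 (Nat.gcd (Nat.add (Nat.mul n 4) 3) Q)) (allQ Q n) = true := h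
    obtain ⟨h1, h2⟩ := and_true h'
    intro q hq hq4 hqn
    rcases Nat.lt_or_ge q (4 * n + 3) with h3 | h3
    · exact ih h2 q hq hq4 h3
    · have e : q = n * 4 + 3 := by omega
      replace h1 : 2 ≤ Nat.gcd (n * 4 + 3) Q := Nat.le_of_ble_eq_true h1
      rw [← e] at h1
      by_contra hnd
      have := (Nat.Prime.coprime_iff_not_dvd hq).2 hnd
      rw [Nat.coprime_iff_gcd_eq_one] at this
      omega

end Win

end Pool.Agent.Lib.MP_0e0027_nt.Ex
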