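import Pool.Agent.Lib.MP_0e0027_nt.Ex.V.Win

/-!
Variant of the sliding window of `Win` with cheap masks and up to `65535` leftovers per step.
-/

set_option autoImplicit false

namespace Pool.Agent.Lib.MP_0e0027_nt.Ex

namespace WinH

open Win

/-- the main loop: `G mod 2^24 = (z' - z) / 2 + 2^8 (number of leftovers)` -/
def run (T P Q BP BQ c c0 e : ℕ) (n : ℕ) : ℕ → ℕ → ℕ → ℕ → ℕ → Bool :=
  Nat.rec (fun _ _ _ s _ ↦ Nat.ble e s) (fun _ ih G E z s acc ↦
    (fun z' : ℕ ↦ (fun zz : ℕ ↦ (fun s' : ℕ ↦ (fun d : ℕ ↦ (fun m : ℕ ↦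
      Bool.and (Nat.beq (Nat.gcd z' P) (nat_lit 1))
      (Bool.and (Nat.beq (Nat.mod zz (nat_lit 24)) (nat_lit 1))
      (Bool.and (Nat.ble (Nat.succ z') BP)
      (Bool.and (Nat.ble s s')
      (los P Q BP BQ c c0 z s m E
        (Nat.land (Nat.sub (Nat.shiftLeft (nat_lit 1) d) (nat_lit 1)) acc) (fun M ↦
        Bool.and (Nat.beq (Nat.succ M) (Nat.shiftLeft (nat_lit 1) d))
          (ih (Nat.shiftRight G (nat_lit 24)) (Nat.shiftRight E (Nat.mul (nat_lit 32) m)) z' s'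
            (Nat.lor (Nat.shiftRight acc d) T))))))))
      (Nat.land (Nat.shiftRight G (nat_lit 8)) (nat_lit 65535)))
      (Nat.sub s' s)) (Nat.div zz (nat_lit 24))) (Nat.mul z' z'))
      (Nat.add z (Nat.mul (nat_lit 2) (Nat.land G (nat_lit 255))))) n

/-- a block: start at `z0` (any number), `nw` steps of warming up, `n` steps of the main loop;
shows that all `24 j + c`, `a ≤ j < e`, are fine -/
def block (T0 L P Q BP BQ c c0 a e z0 nw GW n G E : ℕ) : Bool :=
  (fun T : ℕ ↦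
    Bool.and (Nat.ble (Nat.add (Nat.mul (nat_lit 24) L) c) (Nat.mul z0 z0))
    (warm T P BP nw GW z0 (Nat.div (Nat.mul z0 z0) (nat_lit 24)) (nat_lit 0) (fun z s acc ↦
      Bool.and (Nat.ble s a) (run T P Q BP BQ c c0 e n G E z s acc))))
    (Nat.land (Nat.sub (Nat.shiftLeft (nat_lit 1) L) (nat_lit 1)) T0)

theorem mask_testBit {L T i : ℕ} (h : (Nat.land (Nat.sub (Nat.shiftLeft 1 L) 1) T).testBit i = true) :
    i < L ∧ T.testBit i = true := by
  have h1 : ((1 <<< L - 1) &&& T).testBit i = true := h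
  rw [Nat.testBit_and, Bool.and_eq_true, Nat.one_shiftLeft, Nat.testBit_two_pow_sub_one] at h1
  exact ⟨by simpa using h1.1, h1.2⟩

theorem run_snd {T L P Q BP BQ B B' c c0 e : ℕ} (hP : PrimeTo B P) (hQ : PrimeTo3 B' Q)
    (hBP : BP ≤ B * B) (hBQ : BQ ≤ B' * B') (hc0 : c0 % 4 = 1 ∨ c0 % 8 = 2) (hc : c = c0 + 1)
    (hT : ∀ i, T.testBit i = true → i < L ∧ P2 (24 * i + c0)) (n : ℕ) :
    ∀ (G E z s acc : ℕ), 2 ≤ z → 24 * L + c ≤ z * z → Inv c s acc →
      run T P Q BP BQ c c0 e n G E z s acc = true →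
      ∀ j, s ≤ j → j < e → P3 (24 * j + c) := by
  induction n with
  | zero =>
    intro G E z s acc _ _ _ h j h1 h2
    have h' : Nat.ble e s = true := h
    have := Nat.le_of_ble_eq_true h'
    omega
  | succ n ih =>
    intro G E z s acc hz2 hzL hinv h j hj1 hj2
    set z' : ℕ := Nat.add z (Nat.mul 2 (Nat.land G 255)) with hz'
    set zz : ℕ := Nat.mul z' z' with hzz
    set s' : ℕ := Nat.div zz 24 with hs'
    set d : ℕ := Nat.sub s' s with hd
    set m : ℕ := Nat.land (Nat.shiftRight G 8) 65535 with hm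
    have h' : Bool.and (Nat.beq (Nat.gcd z' P) 1)
      (Bool.and (Nat.beq (Nat.mod zz 24) 1)
      (Bool.and (Nat.ble (Nat.succ z') BP)
      (Bool.and (Nat.ble s s')
      (los P Q BP BQ c c0 z s m E (Nat.land (Nat.sub (Nat.shiftLeft 1 d) 1) acc) (fun M ↦
        Bool.and (Nat.beq (Nat.succ M) (Nat.shiftLeft 1 d))
          (run T P Q BP BQ c c0 e n (Nat.shiftRight G 24) (Nat.shiftRight E (Nat.mul 32 m)) z' s'
            (Nat.lor (Nat.shiftRight acc d) T))))))) = true := h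
    obtain ⟨h1, h'⟩ := and_true h'
    obtain ⟨h2, h'⟩ := and_true h'
    obtain ⟨h3, h'⟩ := and_true h'
    obtain ⟨h4, h'⟩ := and_true h'
    replace h1 := Nat.eq_of_beq_eq_true h1
    replace h2 := Nat.eq_of_beq_eq_true h2
    replace h3 := Nat.le_of_ble_eq_true h3
    replace h4 := Nat.le_of_ble_eq_true h4
    have hzle : z ≤ z' := Nat.le_add_right _ _
    have hzzle : z * z ≤ z' * z' := Nat.mul_le_mul hzle hzle
    have hinv' : Inv c s (Nat.land (Nat.sub (Nat.shiftLeft 1 d) 1) acc) :=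
      fun i hi ↦ hinv i (mask_testBit hi).2
    obtain ⟨M, hM, hk⟩ := los_snd hP hQ hBP hBQ hc0 hc m E _ _ hinv' h'
    obtain ⟨hk1, hk2⟩ := and_true hk
    replace hk1 : M + 1 = 1 <<< d := Nat.eq_of_beq_eq_true hk1
    have hnew : Inv c s' (Nat.lor (Nat.shiftRight acc d) T) :=
      inv_step hP hBP hc hT (hzL.trans hzzle) (by omega) hs' h1 h2 h3 h4 hinv
    rcases Nat.lt_or_ge j s' with hjs | hjs
    · have h5 : M.testBit (j - s) = true := by
        rw [Nat.one_shiftLeft] at hk1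
        have h6 : M = 2 ^ d - 1 := by omega
        rw [h6, Nat.testBit_two_pow_sub_one]
        have : j - s < d := by
          have : d = s' - s := rfl
          omega
        simpa using this
      have h7 := hM _ h5
      have e2 : s + (j - s) = j := by omega
      rwa [e2] at h7
    · exact ih _ _ z' s' _ (by omega) (hzL.trans hzzle) hnew hk2 j hjs hj2

/-- soundness of a block -/
theorem block_snd {T0 L P Q BP BQ B B' c c0 a e z0 nw GW n G E : ℕ} (hP : PrimeTo B P)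
    (hQ : PrimeTo3 B' Q) (hBP : BP ≤ B * B) (hBQ : BQ ≤ B' * B')
    (hc0 : c0 % 4 = 1 ∨ c0 % 8 = 2) (hc : c = c0 + 1)
    (hT : ∀ i, T0.testBit i = true → P2 (24 * i + c0))
    (h : block T0 L P Q BP BQ c c0 a e z0 nw GW n G E = true) :
    ∀ j, a ≤ j → j < e → P3 (24 * j + c) := by
  intro j hj1 hj2
  set T : ℕ := Nat.land (Nat.sub (Nat.shiftLeft 1 L) 1) T0 with hTdef
  have h' : Bool.and (Nat.ble (Nat.add (Nat.mul 24 L) c) (Nat.mul z0 z0))
    (warm T P BP nw GW z0 (Nat.div (Nat.mul z0 z0) 24) 0 (fun z s acc ↦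
      Bool.and (Nat.ble s a) (run T P Q BP BQ c c0 e n G E z s acc))) = true := h
  obtain ⟨h1, h2⟩ := and_true h'
  have h1' : 24 * L + c ≤ z0 * z0 := Nat.le_of_ble_eq_true h1
  have hT' : ∀ i, T.testBit i = true → i < L ∧ P2 (24 * i + c0) :=
    fun i hi ↦ ⟨(mask_testBit hi).1, hT i (mask_testBit hi).2⟩
  have hz0 : 2 ≤ z0 := by
    by_contra hcon
    push Not at hcon
    have hcc : 2 ≤ c := by omega
    interval_cases z0 <;> omega
  obtain ⟨z1, s1, acc1, hz1, hL1, hinv1, hk⟩ := warm_snd hP hBP hc hT' nw GW z0 _ 0 _ hz0 h1'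
    (by intro i hi; rw [Nat.zero_testBit] at hi; exact absurd hi (by decide)) h2
  obtain ⟨hk1, hk2⟩ := and_true hk
  replace hk1 := Nat.le_of_ble_eq_true hk1
  exact run_snd hP hQ hBP hBQ hc0 hc hT' n G E z1 s1 acc1 hz1 hL1 hinv1 hk2 j (by omega) hj2

end WinH

end Pool.Agent.Lib.MP_0e0027_nt.Ex
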