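import Pool.Agent.Lib.MP_0e0027_nt.Ex.V.WinH

/-!
Variant of the sliding window of `WinH` with small memory: the leftovers of a step are checked in
chunks of `w` bits, their certificates are cut out of `E` once per step, and the warming up uses
shifted tables only. Word format (32 bits): for every chunk the number of its leftovers, then
the leftovers `p + 2^22 o`, `p` relative to the chunk.
-/

set_option autoImplicit false

namespace Pool.Agent.Lib.MP_0e0027_nt.Ex

namespace WinK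

open Win WinH

/-- `n` chunks of `w` bits -/
def chk (P Q BP BQ c c0 z w : ℕ) (n : ℕ) : ℕ → ℕ → ℕ → (ℕ → ℕ → ℕ → Bool) → Bool :=
  Nat.rec (fun low s e k ↦ k low s e) (fun _ ih low s e k ↦
    (fun cnt : ℕ ↦
      los P Q BP BQ c c0 z s cnt (Nat.shiftRight e (nat_lit 32))
        (Nat.land (Nat.sub (Nat.shiftLeft (nat_lit 1) w) (nat_lit 1)) low) (fun M ↦
        Bool.and (Nat.beq (Nat.succ M) (Nat.shiftLeft (nat_lit 1) w))
          (ih (Nat.shiftRight low w) (Nat.add s w)
            (Nat.shiftRight e (Nat.mul (nat_lit 32) (Nat.succ cnt))) k)))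
      (Nat.land e (nat_lit 4294967295))) n

/-- the main loop: `G mod 2^24 = (z' - z) / 2 + 2^8 (number of words)` -/
def run (T P Q BP BQ c c0 e w : ℕ) (n : ℕ) : ℕ → ℕ → ℕ → ℕ → ℕ → Bool :=
  Nat.rec (fun _ _ _ s _ ↦ Nat.ble e s) (fun _ ih G E z s acc ↦
    (fun z' : ℕ ↦ (fun zz : ℕ ↦ (fun s' : ℕ ↦ (fun d : ℕ ↦ (fun m : ℕ ↦
      Bool.and (Nat.beq (Nat.gcd z' P) (nat_lit 1))
      (Bool.and (Nat.beq (Nat.mod zz (nat_lit 24)) (nat_lit 1))
      (Bool.and (Nat.ble (Nat.succ z') BP)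
      (Bool.and (Nat.ble s s')
      (chk P Q BP BQ c c0 z w (Nat.div d w)
        (Nat.land (Nat.sub (Nat.shiftLeft (nat_lit 1) d) (nat_lit 1)) acc) s
        (Nat.land (Nat.sub (Nat.shiftLeft (nat_lit 1) (Nat.mul (nat_lit 32) m)) (nat_lit 1)) E)
        (fun low t e' ↦
          los P Q BP BQ c c0 z t (Nat.land e' (nat_lit 4294967295))
            (Nat.shiftRight e' (nat_lit 32)) low (fun M ↦
            Bool.and (Nat.beq (Nat.succ M) (Nat.shiftLeft (nat_lit 1) (Nat.mod d w)))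
              (ih (Nat.shiftRight G (nat_lit 24)) (Nat.shiftRight E (Nat.mul (nat_lit 32) m)) z' s'
                (Nat.lor (Nat.shiftRight acc d) T)))))))))
      (Nat.land (Nat.shiftRight G (nat_lit 8)) (nat_lit 65535)))
      (Nat.sub s' s)) (Nat.div zz (nat_lit 24))) (Nat.mul z' z'))
      (Nat.add z (Nat.mul (nat_lit 2) (Nat.land G (nat_lit 255))))) n

/-- warming up at the position `a` -/
def warm (T P BP a : ℕ) (n : ℕ) : ℕ → ℕ → ℕ → (ℕ → ℕ → Bool) → Bool :=
  Nat.rec (fun _ z acc k ↦ k z acc) (fun _ ih G z acc k ↦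
    (fun z' : ℕ ↦ (fun zz : ℕ ↦ (fun s' : ℕ ↦
      Bool.and (Nat.beq (Nat.gcd z' P) (nat_lit 1))
      (Bool.and (Nat.beq (Nat.mod zz (nat_lit 24)) (nat_lit 1))
      (Bool.and (Nat.ble (Nat.succ z') BP)
      (Bool.and (Nat.ble s' a)
        (ih (Nat.shiftRight G (nat_lit 8)) z'
            (Nat.lor (Nat.shiftRight T (Nat.sub a s')) acc) k)))))
      (Nat.div zz (nat_lit 24))) (Nat.mul z' z'))
      (Nat.add z (Nat.mul (nat_lit 2) (Nat.land G (nat_lit 255))))) n

/-- a block: start at `z0` (any number), `nw` steps of warming up, `n` steps of the main loop;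
shows that all `24 j + c`, `a ≤ j < e`, are fine -/
def block (T0 L P Q BP BQ c c0 w a e z0 nw GW n G E : ℕ) : Bool :=
  (fun T : ℕ ↦
    Bool.and (Nat.ble (Nat.add (Nat.mul (nat_lit 24) L) c) (Nat.mul z0 z0))
    (warm T P BP a nw GW z0 (nat_lit 0) (fun z acc ↦
      run T P Q BP BQ c c0 e w n G E z a acc)))
    (Nat.land (Nat.sub (Nat.shiftLeft (nat_lit 1) L) (nat_lit 1)) T0)

/-! ### soundness -/

theorem inv_land {c s d acc : ℕ} (h : Inv c s acc) :
    Inv c s (Nat.land (Nat.sub (Nat.shiftLeft 1 d) 1) acc) := by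
  intro i hi
  have hi' : ((1 <<< d - 1) &&& acc).testBit i = true := hi
  rw [Nat.testBit_and, Bool.and_eq_true] at hi'
  exact h i hi'.2

theorem full {c s M w : ℕ} (hM : Inv c s M) (h : Nat.beq (Nat.succ M) (Nat.shiftLeft 1 w) = true) :
    ∀ j, s ≤ j → j < s + w → P3 (24 * j + c) := by
  intro j h1 h2
  have h3 : M + 1 = 1 <<< w := Nat.eq_of_beq_eq_true h
  rw [Nat.one_shiftLeft] at h3
  have h4 : M = 2 ^ w - 1 := by omega
  have h5 : M.testBit (j - s) = true := by
    rw [h4, Nat.testBit_two_pow_sub_one]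
    have : j - s < w := by omega
    simpa using this
  have h6 := hM _ h5
  have e2 : s + (j - s) = j := by omega
  rwa [e2] at h6

theorem inv_shift {c s w low : ℕ} (h : Inv c s low) : Inv c (Nat.add s w) (Nat.shiftRight low w) := by
  intro i hi
  have hi' : (low >>> w).testBit i = true := hi
  rw [Nat.testBit_shiftRight] at hi'
  have := h _ hi'
  have e : s + (w + i) = Nat.add s w + i := by
    show s + (w + i) = s + w + i
    omega
  rwa [e] at this

theorem chk_snd {P Q BP BQ B B' c c0 z w : ℕ} (hP : PrimeTo B P) (hQ : PrimeTo3 B' Q)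
    (hBP : BP ≤ B * B) (hBQ : BQ ≤ B' * B') (hc0 : c0 % 4 = 1 ∨ c0 % 8 = 2) (hc : c = c0 + 1)
    (n : ℕ) : ∀ (low s e : ℕ) (k : ℕ → ℕ → ℕ → Bool), Inv c s low →
      chk P Q BP BQ c c0 z w n low s e k = true →
      ∃ low' e', (∀ j, s ≤ j → j < s + n * w → P3 (24 * j + c)) ∧ Inv c (s + n * w) low' ∧
        k low' (s + n * w) e' = true := by
  induction n with
  | zero =>
    intro low s e k hm h
    refine ⟨low, e, ?_, ?_, ?_⟩
    · intro j h1 h2
      omega
    · simpa using hm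
    · have h' : k low s e = true := h
      simpa using h'
  | succ n ih =>
    intro low s e k hm h
    have h' : los P Q BP BQ c c0 z s (Nat.land e 4294967295) (Nat.shiftRight e 32)
        (Nat.land (Nat.sub (Nat.shiftLeft 1 w) 1) low) (fun M ↦
        Bool.and (Nat.beq (Nat.succ M) (Nat.shiftLeft 1 w))
          (chk P Q BP BQ c c0 z w n (Nat.shiftRight low w) (Nat.add s w)
            (Nat.shiftRight e (Nat.mul 32 (Nat.succ (Nat.land e 4294967295)))) k)) = true := h
    obtain ⟨M, hM, hk⟩ := los_snd hP hQ hBP hBQ hc0 hc _ _ _ _ (inv_land hm) h'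
    obtain ⟨hk1, hk2⟩ := and_true hk
    obtain ⟨low', e', h1, h2, h3⟩ := ih _ _ _ _ (inv_shift hm) hk2
    have e1 : Nat.add s w + n * w = s + (n + 1) * w := by
      show s + w + n * w = _
      ring
    rw [e1] at h1 h2 h3
    refine ⟨low', e', ?_, h2, h3⟩
    intro j hj1 hj2
    rcases Nat.lt_or_ge j (s + w) with h | h
    · exact full hM hk1 j hj1 h
    · exact h1 j h hj2

theorem run_snd {T L P Q BP BQ B B' c c0 e w : ℕ} (hP : PrimeTo B P) (hQ : PrimeTo3 B' Q)
    (hBP : BP ≤ B * B) (hBQ : BQ ≤ B' * B') (hc0 : c0 % 4 = 1 ∨ c0 % 8 = 2) (hc : c = c0 + 1)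
    (hT : ∀ i, T.testBit i = true → i < L ∧ P2 (24 * i + c0)) (n : ℕ) :
    ∀ (G E z s acc : ℕ), 2 ≤ z → 24 * L + c ≤ z * z → Inv c s acc →
      run T P Q BP BQ c c0 e w n G E z s acc = true →
      ∀ j, s ≤ j → j < e → P3 (24 * j + c) := by
  induction n with
  | zero =>
    intro G E z s acc _ _ _ h j h1 h2
    have h' : Nat.ble e s = true := h
    have := Nat.le_of_ble_eq_true h'
    omega
  | succ n ih =>
    intro G E z s acc hz2 hzL hinv h j hj1 hj2
    set z' : ℕ := Nat.add z (Nat.mul 2 (Nat.land G 255)) with hz'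
    set zz : ℕ := Nat.mul z' z' with hzz
    set s' : ℕ := Nat.div zz 24 with hs'
    set d : ℕ := Nat.sub s' s with hd
    set m : ℕ := Nat.land (Nat.shiftRight G 8) 65535 with hm
    have h' : Bool.and (Nat.beq (Nat.gcd z' P) 1)
      (Bool.and (Nat.beq (Nat.mod zz 24) 1)
      (Bool.and (Nat.ble (Nat.succ z') BP)
      (Bool.and (Nat.ble s s')
      (chk P Q BP BQ c c0 z w (Nat.div d w)
        (Nat.land (Nat.sub (Nat.shiftLeft 1 d) 1) acc) s
        (Nat.land (Nat.sub (Nat.shiftLeft 1 (Nat.mul 32 m)) 1) E)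
        (fun low t e' ↦
          los P Q BP BQ c c0 z t (Nat.land e' 4294967295)
            (Nat.shiftRight e' 32) low (fun M ↦
            Bool.and (Nat.beq (Nat.succ M) (Nat.shiftLeft 1 (Nat.mod d w)))
              (run T P Q BP BQ c c0 e w n (Nat.shiftRight G 24)
                (Nat.shiftRight E (Nat.mul 32 m)) z' s'
                (Nat.lor (Nat.shiftRight acc d) T)))))))) = true := h
    obtain ⟨h1, h'⟩ := and_true h'
    obtain ⟨h2, h'⟩ := and_true h'
    obtain ⟨h3, h'⟩ := and_true h'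
    obtain ⟨h4, h'⟩ := and_true h'
    replace h1 := Nat.eq_of_beq_eq_true h1
    replace h2 := Nat.eq_of_beq_eq_true h2
    replace h3 := Nat.le_of_ble_eq_true h3
    replace h4 := Nat.le_of_ble_eq_true h4
    have hzle : z ≤ z' := Nat.le_add_right _ _
    have hzzle : z * z ≤ z' * z' := Nat.mul_le_mul hzle hzle
    obtain ⟨low', e', hc1, hc2, hc3⟩ := chk_snd hP hQ hBP hBQ hc0 hc _ _ _ _ _ (inv_land hinv) h'
    obtain ⟨M, hM, hk⟩ := los_snd hP hQ hBP hBQ hc0 hc _ _ _ _ hc2 hc3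
    obtain ⟨hk1, hk2⟩ := and_true hk
    have hnew : Inv c s' (Nat.lor (Nat.shiftRight acc d) T) :=
      inv_step hP hBP hc hT (hzL.trans hzzle) (by omega) hs' h1 h2 h3 h4 hinv
    rcases Nat.lt_or_ge j s' with hjs | hjs
    · rcases Nat.lt_or_ge j (s + Nat.div d w * w) with h5 | h5
      · exact hc1 j hj1 h5
      · refine full hM hk1 j h5 ?_
        have h6 : d = s' - s := rfl
        have h7 : w * (d / w) + d % w = d := Nat.div_add_mod d w
        have h8 : Nat.div d w * w = w * (d / w) := Nat.mul_comm _ _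
        have h9 : Nat.mod d w = d % w := rfl
        omega
    · exact ih _ _ z' s' _ (by omega) (hzL.trans hzzle) hnew hk2 j hjs hj2

theorem warm_snd {T L P BP B c c0 a : ℕ} (hP : PrimeTo B P)
    (hBP : BP ≤ B * B) (hc : c = c0 + 1)
    (hT : ∀ i, T.testBit i = true → i < L ∧ P2 (24 * i + c0)) (n : ℕ) :
    ∀ (G z acc : ℕ) (k : ℕ → ℕ → Bool), 2 ≤ z → 24 * L + c ≤ z * z → Inv c a acc →
      warm T P BP a n G z acc k = true →
      ∃ z1 acc1, 2 ≤ z1 ∧ 24 * L + c ≤ z1 * z1 ∧ Inv c a acc1 ∧ k z1 acc1 = true := by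
  induction n with
  | zero => exact fun G z acc k h1 h2 h3 h ↦ ⟨z, acc, h1, h2, h3, h⟩
  | succ n ih =>
    intro G z acc k hz2 hzL hinv h
    set z' : ℕ := Nat.add z (Nat.mul 2 (Nat.land G 255)) with hz'
    set zz : ℕ := Nat.mul z' z' with hzz
    set s' : ℕ := Nat.div zz 24 with hs'
    have h' : Bool.and (Nat.beq (Nat.gcd z' P) 1)
      (Bool.and (Nat.beq (Nat.mod zz 24) 1)
      (Bool.and (Nat.ble (Nat.succ z') BP)
      (Bool.and (Nat.ble s' a)
        (warm T P BP a n (Nat.shiftRight G 8) z'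
            (Nat.lor (Nat.shiftRight T (Nat.sub a s')) acc) k)))) = true := h
    obtain ⟨h1, h'⟩ := and_true h'
    obtain ⟨h2, h'⟩ := and_true h'
    obtain ⟨h3, h'⟩ := and_true h'
    obtain ⟨h4, h'⟩ := and_true h'
    replace h1 := Nat.eq_of_beq_eq_true h1
    replace h2 := Nat.eq_of_beq_eq_true h2
    replace h3 := Nat.le_of_ble_eq_true h3
    replace h4 := Nat.le_of_ble_eq_true h4
    have hzle : z ≤ z' := Nat.le_add_right _ _
    have hzzle : z * z ≤ z' * z' := Nat.mul_le_mul hzle hzle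
    refine ih _ z' _ k (by omega) (hzL.trans hzzle) ?_ h'
    intro i hi
    have hi' : ((T >>> (a - s')) ||| acc).testBit i = true := hi
    rw [Nat.testBit_or, Bool.or_eq_true, Nat.testBit_shiftRight] at hi'
    rcases hi' with h | h
    · obtain ⟨hiL, hp⟩ := hT _ h
      have hprime : z'.Prime := prime_of_gcd hP (by omega) (by omega) h1
      have hs1 : s' = z' * z' / 24 := rfl
      have hs2 : z' * z' % 24 = 1 := h2
      have hs3 : 24 * L + c ≤ z' * z' := hzL.trans hzzle
      have := P3_of_prime hprime hp (by rw [pow_two]; omega)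
      have e : 24 * (a + i) + c = z' ^ 2 + (24 * (a - s' + i) + c0) := by rw [pow_two]; omega
      rw [e]; exact this
    · exact hinv i h

/-- soundness of a block -/
theorem block_snd {T0 L P Q BP BQ B B' c c0 w a e z0 nw GW n G E : ℕ} (hP : PrimeTo B P)
    (hQ : PrimeTo3 B' Q) (hBP : BP ≤ B * B) (hBQ : BQ ≤ B' * B')
    (hc0 : c0 % 4 = 1 ∨ c0 % 8 = 2) (hc : c = c0 + 1)
    (hT : ∀ i, T0.testBit i = true → P2 (24 * i + c0))
    (h : block T0 L P Q BP BQ c c0 w a e z0 nw GW n G E = true) :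
    ∀ j, a ≤ j → j < e → P3 (24 * j + c) := by
  intro j hj1 hj2
  set T : ℕ := Nat.land (Nat.sub (Nat.shiftLeft 1 L) 1) T0 with hTdef
  have h' : Bool.and (Nat.ble (Nat.add (Nat.mul 24 L) c) (Nat.mul z0 z0))
    (warm T P BP a nw GW z0 0 (fun z acc ↦ run T P Q BP BQ c c0 e w n G E z a acc)) = true := h
  obtain ⟨h1, h2⟩ := and_true h'
  have h1' : 24 * L + c ≤ z0 * z0 := Nat.le_of_ble_eq_true h1
  have hT' : ∀ i, T.testBit i = true → i < L ∧ P2 (24 * i + c0) :=
    fun i hi ↦ ⟨(mask_testBit hi).1, hT i (mask_testBit hi).2⟩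
  have hz0 : 2 ≤ z0 := by
    by_contra hcon
    push Not at hcon
    have hcc : 2 ≤ c := by omega
    interval_cases z0 <;> omega
  obtain ⟨z1, acc1, hz1, hL1, hinv1, hk⟩ := warm_snd hP hBP hc hT' nw GW z0 0 _ hz0 h1'
    (by intro i hi; rw [Nat.zero_testBit] at hi; exact absurd hi (by decide)) h2
  exact run_snd hP hQ hBP hBQ hc0 hc hT' n G E z1 a acc1 hz1 hL1 hinv1 hk j hj1 hj2

end WinK

end Pool.Agent.Lib.MP_0e0027_nt.Ex
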